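import Pool.Agent.Lib.MP_4b1e7e_an.Strip

set_option autoImplicit false

/-!
Taylor coefficients of the strip maps and of their Moebius transforms.
-/

namespace Pool.Agent.MobConv

open Metric Finset

theorem tcoeff_mul {f g : ℂ → ℂ} (hf : AnalyticAt ℂ f 0) (hg : AnalyticAt ℂ g 0) (n : ℕ) :
    tcoeff (fun z => f z * g z) n = ∑ i ∈ range (n + 1), tcoeff f i * tcoeff g (n - i) := by
  unfold tcoeff
  rw [iteratedDeriv_fun_mul hf.contDiffAt hg.contDiffAt, sum_div]
  refine sum_congr rfl fun i hi => ?_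
  have hi' : i ≤ n := Nat.lt_succ_iff.mp (mem_range.mp hi)
  have h1 := Nat.choose_mul_factorial_mul_factorial hi'
  have h2 : ((n.choose i : ℂ) * (i.factorial : ℂ) * ((n - i).factorial : ℂ)) = (n.factorial : ℂ) := by
    exact_mod_cast h1
  have h3 : (i.factorial : ℂ) ≠ 0 := by exact_mod_cast i.factorial_ne_zero
  have h4 : ((n - i).factorial : ℂ) ≠ 0 := by exact_mod_cast (n - i).factorial_ne_zero
  have h5 : (n.factorial : ℂ) ≠ 0 := by exact_mod_cast n.factorial_ne_zero
  rw [← h2]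
  have h6 : (n.choose i : ℂ) ≠ 0 := by
    intro h
    rw [h] at h2
    simp only [zero_mul] at h2
    exact h5 h2.symm
  field_simp

theorem tcoeff_congr {f g : ℂ → ℂ} (h : ∀ z ∈ ball (0 : ℂ) 1, f z = g z) (n : ℕ) :
    tcoeff f n = tcoeff g n := by
  unfold tcoeff
  rw [Filter.EventuallyEq.iteratedDeriv_eq n (f := f) (g := g)]
  filter_upwards [Metric.ball_mem_nhds (0 : ℂ) one_pos] with z hz
  exact h z hz

theorem tcoeff_zero (f : ℂ → ℂ) : tcoeff f 0 = f 0 := by
  simp [tcoeff]

theorem tcoeff_succ (f : ℂ → ℂ) (n : ℕ) : tcoeff f (n + 1) = tcoeff (deriv f) n / (n + 1) := by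
  unfold tcoeff
  rw [iteratedDeriv_succ', Nat.factorial_succ]
  push_cast
  rw [div_div, mul_comm]

theorem tcoeff_const_succ (c : ℂ) (n : ℕ) : tcoeff (fun _ => c) (n + 1) = 0 := by
  rw [tcoeff_succ]
  have : deriv (fun _ : ℂ => c) = fun _ => 0 := by
    ext z; simp
  rw [this]
  simp [tcoeff]

theorem tcoeff_lin (b : ℂ) (n : ℕ) :
    tcoeff (fun z => 1 + b * z) n = if n = 0 then 1 else if n = 1 then b else 0 := by
  rcases n with _ | n
  · simp [tcoeff_zero]
  · rw [tcoeff_succ]
    have h1 : deriv (fun z : ℂ => 1 + b * z) = fun _ => b := by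
      ext z
      rw [deriv_const_add, deriv_const_mul _ differentiableAt_id]
      simp
    rw [h1]
    rcases n with _ | n
    · simp [tcoeff_zero]
    · rw [tcoeff_const_succ]
      simp

/-- Geometric series. -/
theorem tcoeff_geom {b : ℂ} (hb : ‖b‖ = 1) (n : ℕ) :
    tcoeff (fun z => 1 / (1 + b * z)) n = (-b) ^ n := by
  have hlin : AnalyticAt ℂ (fun z : ℂ => 1 + b * z) 0 := by fun_prop
  have hg : AnalyticAt ℂ (fun z : ℂ => 1 / (1 + b * z)) 0 := by
    refine analyticAt_const.div hlin ?_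
    simp
  induction n with
  | zero => simp [tcoeff_zero]
  | succ n ih =>
    have h1 : tcoeff (fun z => (1 + b * z) * (1 / (1 + b * z))) (n + 1) = 0 := by
      rw [tcoeff_congr (g := fun _ => 1) (fun z hz => by
        have := one_add_ne hb hz
        field_simp)]
      exact tcoeff_const_succ 1 n
    rw [tcoeff_mul hlin hg, sum_range_succ', sum_range_succ'] at h1
    rw [sum_eq_zero] at h1
    · rw [tcoeff_lin, tcoeff_lin] at h1
      simp only [zero_add, Nat.add_sub_cancel, one_ne_zero, if_false, if_true, one_mul,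
        Nat.sub_zero] at h1
      rw [ih] at h1
      rw [pow_succ]
      linear_combination h1
    · intro i _
      rw [tcoeff_lin]
      simp

theorem tcoeff_comb {a b : ℂ} (c d : ℂ) (hb : ‖b‖ = 1) (ha : ‖a‖ = 1) (n : ℕ) :
    tcoeff (fun z => c * (1 / (1 + a * z)) + d * (1 / (1 + b * z))) n =
      c * (-a) ^ n + d * (-b) ^ n := by
  have h : ∀ {e : ℂ}, AnalyticAt ℂ (fun z : ℂ => 1 / (1 + e * z)) 0 := by
    intro e
    refine analyticAt_const.div (by fun_prop) ?_
    simp
  have h1 : ∀ e f : ℂ, AnalyticAt ℂ (fun z : ℂ => e * (1 / (1 + f * z))) 0 := fun e f =>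
    analyticAt_const.mul h
  have h2 := tcoeff_geom ha n
  have h3 := tcoeff_geom hb n
  unfold tcoeff at h2 h3 ⊢
  rw [iteratedDeriv_fun_add (h1 c a).contDiffAt (h1 d b).contDiffAt,
    iteratedDeriv_const_mul_field, iteratedDeriv_const_mul_field, ← h2, ← h3]
  ring

theorem analyticAt_of_diff {f : ℂ → ℂ} (hf : DifferentiableOn ℂ f (ball 0 1)) :
    AnalyticAt ℂ f 0 :=
  hf.analyticAt (Metric.ball_mem_nhds (0 : ℂ) one_pos)

section

variable {x : ℝ} (hx0 : 0 < x) (hxpi : x < Real.pi)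

include hx0 hxpi

theorem tcoeff_strip (n : ℕ) :
    tcoeff (strip x) (n + 1) =
      (((-1) ^ n * Real.sin ((n + 1) * x) / ((n + 1) * Real.sin x) : ℝ) : ℂ) := by
  have hs : 0 < Real.sin x := sin_pos' hx0 hxpi
  have hsC : (Real.sin x : ℂ) ≠ 0 := by exact_mod_cast hs.ne'
  have h6 : (2 * Complex.I * (Real.sin x : ℂ)) = ua x - (starRingEnd ℂ) (ua x) := by
    rw [Complex.sub_conj, ua_im]
    push_cast
    ring
  have h7 : ua x - (starRingEnd ℂ) (ua x) ≠ 0 := by
    rw [← h6]
    exact mul_ne_zero (mul_ne_zero two_ne_zero Complex.I_ne_zero) hsC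
  rw [tcoeff_succ]
  have h1 : ∀ z ∈ ball (0 : ℂ) 1, deriv (strip x) z =
      (ua x / (ua x - (starRingEnd ℂ) (ua x))) * (1 / (1 + ua x * z)) +
      (-(starRingEnd ℂ) (ua x) / (ua x - (starRingEnd ℂ) (ua x))) *
        (1 / (1 + (starRingEnd ℂ) (ua x) * z)) := by
    intro z hz
    rw [(strip_diffAt hx0 hxpi hz).deriv]
    have h0 : 1 + (starRingEnd ℂ) (ua x) * z ≠ 0 := one_add_ne (conj_norm ua_norm) hz
    have h0' : 1 + (ua x) * z ≠ 0 := one_add_ne ua_norm hz
    generalize (starRingEnd ℂ) (ua x) = b at *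
    generalize ua x = a at *
    rw [div_mul_div_comm, div_mul_div_comm,
      div_add_div _ _ (mul_ne_zero h7 h0') (mul_ne_zero h7 h0),
      div_eq_div_iff (mul_ne_zero h0' h0)
        (mul_ne_zero (mul_ne_zero h7 h0') (mul_ne_zero h7 h0))]
    ring
  rw [tcoeff_congr h1, tcoeff_comb _ _ (conj_norm ua_norm) ua_norm]
  have h8 : ua x ^ (n + 1) - (starRingEnd ℂ) (ua x) ^ (n + 1) =
      2 * Complex.I * (Real.sin ((n + 1) * x) : ℂ) := by
    have h9 : ua x ^ (n + 1) = ua ((n + 1) * x) := by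
      rw [ua, ua, ← Complex.exp_nat_mul]
      congr 1
      push_cast
      ring
    rw [← map_pow, h9, Complex.sub_conj, ua_im]
    push_cast
    ring
  have h10 : ((n : ℂ) + 1) ≠ 0 := by exact_mod_cast (Nat.succ_ne_zero n)
  have h11 : ua x / (ua x - (starRingEnd ℂ) (ua x)) * (-ua x) ^ n +
      -(starRingEnd ℂ) (ua x) / (ua x - (starRingEnd ℂ) (ua x)) * (-(starRingEnd ℂ) (ua x)) ^ n =
      (-1) ^ n * ((ua x ^ (n + 1) - (starRingEnd ℂ) (ua x) ^ (n + 1)) /
        (ua x - (starRingEnd ℂ) (ua x))) := by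
    rw [neg_pow (ua x), neg_pow ((starRingEnd ℂ) (ua x)), pow_succ, pow_succ]
    ring
  rw [h11, h8, ← h6]
  push_cast
  have hI : (2 * Complex.I) ≠ 0 := mul_ne_zero two_ne_zero Complex.I_ne_zero
  rw [mul_div_mul_left _ _ hI]
  have hsC' : Complex.sin (x : ℂ) ≠ 0 := by
    rw [← Complex.ofReal_sin]; exact hsC
  field_simp

/-- The Moebius transform of the strip map. -/
theorem hat_props :
    ∃ r : ℕ → ℂ, r 0 = 1 ∧
      (∀ n, r (n + 1) = ∑ i ∈ range (n + 1),
        ((2 * (-1) ^ i * Real.sin ((i + 1) * x) / ((i + 1) * x) : ℝ) : ℂ) * r (n - i)) ∧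
      ∀ n, 1 ≤ n → tcoeff (fun z => strip x z / (1 - strip x z / ((x / (2 * Real.sin x) : ℝ) : ℂ))) n =
        ((x / (2 * Real.sin x) : ℝ) : ℂ) * r n := by
  have hs : 0 < Real.sin x := sin_pos' hx0 hxpi
  have hw : ((x / (2 * Real.sin x) : ℝ) : ℂ) ≠ 0 := by
    have : x / (2 * Real.sin x) ≠ 0 := by positivity
    exact_mod_cast this
  set w : ℂ := ((x / (2 * Real.sin x) : ℝ) : ℂ) with hwdef
  have hcv := strip_convexMap hx0 hxpi
  have han : AnalyticAt ℂ (strip x) 0 := analyticAt_of_diff hcv.diff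
  have hne : ∀ z ∈ ball (0 : ℂ) 1, 1 - strip x z / w ≠ 0 := by
    intro z hz h
    have h1 : strip x z = w := by
      field_simp at h
      linear_combination -h
    refine strip_notMem hx0 hxpi ⟨z, hz, ?_⟩
    rw [h1, hwdef]
  have hanp : AnalyticAt ℂ (fun z => 1 - strip x z / w) 0 :=
    analyticAt_const.sub (han.div analyticAt_const hw)
  have hanr : AnalyticAt ℂ (fun z => 1 / (1 - strip x z / w)) 0 :=
    analyticAt_const.div hanp (hne 0 (by simp))
  have hp : ∀ n, tcoeff (fun z => 1 - strip x z / w) (n + 1) = - (tcoeff (strip x) (n + 1) / w) := by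
    intro n
    unfold tcoeff
    have h1 : (fun z => 1 - strip x z / w) = fun z => 1 + (-w⁻¹) * strip x z := by
      ext z
      ring
    rw [h1, iteratedDeriv_succ', iteratedDeriv_succ']
    have h2 : deriv (fun z => 1 + (-w⁻¹) * strip x z) = fun z => (-w⁻¹) * deriv (strip x) z := by
      ext z
      rw [deriv_const_add, deriv_const_mul_field]
    rw [h2, iteratedDeriv_const_mul_field]
    ring
  refine ⟨tcoeff (fun z => 1 / (1 - strip x z / w)), ?_, ?_, ?_⟩
  · rw [tcoeff_zero, hcv.zero]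
    simp
  · intro n
    have h1 : tcoeff (fun z => (1 - strip x z / w) * (1 / (1 - strip x z / w))) (n + 1) = 0 := by
      rw [tcoeff_congr (g := fun _ => 1) (fun z hz => by
        have := hne z hz
        exact mul_one_div_cancel this)]
      exact tcoeff_const_succ 1 n
    rw [tcoeff_mul hanp hanr, sum_range_succ'] at h1
    rw [tcoeff_zero (fun z => 1 - strip x z / w), hcv.zero, zero_div, sub_zero, one_mul,
      Nat.sub_zero] at h1
    rw [eq_neg_of_add_eq_zero_right h1, ← sum_neg_distrib]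
    refine sum_congr rfl fun i _ => ?_
    rw [hp, tcoeff_strip hx0 hxpi, Nat.add_sub_add_right, hwdef]
    rw [← Complex.ofReal_div, ← neg_mul, neg_neg]
    congr 2
    have : (0 : ℝ) < i + 1 := by positivity
    field_simp
  · intro n hn
    obtain ⟨m, rfl⟩ : ∃ m, n = m + 1 := ⟨n - 1, by omega⟩
    have h1 : ∀ z ∈ ball (0 : ℂ) 1, strip x z / (1 - strip x z / w) =
        w * (1 / (1 - strip x z / w)) + (-w) := by
      intro z hz
      have := hne z hz
      rw [div_eq_iff this, add_mul, mul_assoc, one_div, inv_mul_cancel₀ this]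
      field_simp
      ring
    rw [tcoeff_congr h1]
    unfold tcoeff
    rw [iteratedDeriv_succ', iteratedDeriv_succ']
    have h2 : deriv (fun z => w * (1 / (1 - strip x z / w)) + (-w)) =
        fun z => w * deriv (fun z => 1 / (1 - strip x z / w)) z := by
      ext z
      rw [deriv_add_const, deriv_const_mul_field]
    rw [h2, iteratedDeriv_const_mul_field]
    ring

end

end Pool.Agent.MobConv
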