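import Mathlib

set_option autoImplicit false

/-!
Vertical strip maps: they are normalised convex maps of the unit disc.
-/

namespace Pool.Agent.MobConv

open Metric

/-- The Taylor coefficient of order `n` at the origin. -/
noncomputable def tcoeff (g : ℂ → ℂ) (n : ℕ) : ℂ := iteratedDeriv n g 0 / (n.factorial : ℂ)

/-- The class `S^c` of normalised convex maps of the unit disc. -/
structure IsConvexMap (f : ℂ → ℂ) : Prop where
  diff : DifferentiableOn ℂ f (ball 0 1)
  inj : Set.InjOn f (ball 0 1)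
  zero : f 0 = 0
  deriv_one : deriv f 0 = 1
  convex : Convex ℝ (f '' ball 0 1)

/-! ### The Moebius map of the disc onto the lower half plane -/

section

/-- The Moebius map onto the lower half plane, `p + i q = e^{ix}`. -/
noncomputable def mo (a : ℂ) (z : ℂ) : ℂ := ((starRingEnd ℂ) a + z) / (1 + (starRingEnd ℂ) a * z)

theorem one_add_ne {b z : ℂ} (hb : ‖b‖ = 1) (hz : z ∈ ball (0 : ℂ) 1) : 1 + b * z ≠ 0 := by
  intro h
  have h1 : b * z = -1 := by linear_combination h
  have h2 : ‖b * z‖ = 1 := by rw [h1]; simp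
  rw [norm_mul, hb, one_mul] at h2
  rw [mem_ball_zero_iff] at hz
  linarith

variable {a : ℂ} (ha : ‖a‖ = 1) (hq : 0 < a.im)

include ha

theorem re_sq_add : a.re ^ 2 + a.im ^ 2 = 1 := by
  have h1 := Complex.normSq_eq_norm_sq a
  rw [ha, Complex.normSq_apply] at h1
  nlinarith

theorem conj_norm : ‖(starRingEnd ℂ) a‖ = 1 := by
  rw [RCLike.norm_conj, ha]

theorem mul_conj_one : a * (starRingEnd ℂ) a = 1 := by
  rw [Complex.mul_conj, Complex.normSq_eq_norm_sq, ha]
  norm_num

include hq

theorem mo_im {z : ℂ} (hz : z ∈ ball (0 : ℂ) 1) : (mo a z).im < 0 := by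
  have h0 : 1 + (starRingEnd ℂ) a * z ≠ 0 := one_add_ne (conj_norm ha) hz
  have h1 : 0 < Complex.normSq (1 + (starRingEnd ℂ) a * z) := Complex.normSq_pos.mpr h0
  have h2 := re_sq_add ha
  have h3 : z.re ^ 2 + z.im ^ 2 < 1 := by
    rw [mem_ball_zero_iff] at hz
    have h4 : ‖z‖ ^ 2 < 1 := by
      have := norm_nonneg z
      nlinarith
    rw [← Complex.normSq_eq_norm_sq, Complex.normSq_apply] at h4
    nlinarith
  rw [mo, Complex.div_im, ← sub_div]
  refine div_neg_of_neg_of_pos ?_ h1
  simp only [Complex.add_re, Complex.add_im, Complex.one_re, Complex.one_im, Complex.mul_re,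
    Complex.mul_im, Complex.conj_re, Complex.conj_im]
  have h5 : (-a.im + z.im) * (1 + (a.re * z.re - -a.im * z.im)) -
      (a.re + z.re) * (0 + (a.re * z.im + -a.im * z.re)) =
      a.im * (z.re ^ 2 + z.im ^ 2 - 1) + (1 - (a.re ^ 2 + a.im ^ 2)) * z.im := by ring
  rw [h5, h2]
  nlinarith

theorem mo_surj {v : ℂ} (hv : v.im < 0) : ∃ z ∈ ball (0 : ℂ) 1, mo a z = v := by
  have h2 := re_sq_add ha
  have hne : 1 - (starRingEnd ℂ) a * v ≠ 0 := by
    intro h
    have h1 : v = a := by
      have h3 := mul_conj_one ha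
      linear_combination (-a) * h - v * h3
    rw [h1] at hv
    linarith
  have hpos : 0 < Complex.normSq (1 - (starRingEnd ℂ) a * v) := Complex.normSq_pos.mpr hne
  refine ⟨(v - (starRingEnd ℂ) a) / (1 - (starRingEnd ℂ) a * v), ?_, ?_⟩
  · rw [mem_ball_zero_iff]
    have h3 : ‖(v - (starRingEnd ℂ) a) / (1 - (starRingEnd ℂ) a * v)‖ ^ 2 < 1 := by
      rw [← Complex.normSq_eq_norm_sq, Complex.normSq_div, div_lt_one hpos]
      simp only [Complex.normSq_apply, Complex.sub_re, Complex.sub_im, Complex.one_re,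
        Complex.one_im, Complex.mul_re, Complex.mul_im, Complex.conj_re, Complex.conj_im]
      have h5 : (1 - (a.re * v.re - -a.im * v.im)) * (1 - (a.re * v.re - -a.im * v.im)) +
          (0 - (a.re * v.im + -a.im * v.re)) * (0 - (a.re * v.im + -a.im * v.re)) -
          ((v.re - a.re) * (v.re - a.re) + (v.im - -a.im) * (v.im - -a.im)) =
          ((a.re ^ 2 + a.im ^ 2) - 1) * (v.re ^ 2 + v.im ^ 2 - 1) - 4 * (a.im * v.im) := by ring
      rw [h2] at h5
      have h6 : a.im * v.im < 0 := mul_neg_of_pos_of_neg hq hv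
      linarith
    have := norm_nonneg ((v - (starRingEnd ℂ) a) / (1 - (starRingEnd ℂ) a * v))
    nlinarith
  · have h4 : (starRingEnd ℂ) a + (v - (starRingEnd ℂ) a) / (1 - (starRingEnd ℂ) a * v) =
        v * (1 - (starRingEnd ℂ) a * (starRingEnd ℂ) a) / (1 - (starRingEnd ℂ) a * v) := by
      field_simp
      ring
    have h5 : 1 + (starRingEnd ℂ) a * ((v - (starRingEnd ℂ) a) / (1 - (starRingEnd ℂ) a * v)) =
        (1 - (starRingEnd ℂ) a * (starRingEnd ℂ) a) / (1 - (starRingEnd ℂ) a * v) := by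
      field_simp
      ring
    have h6 : (1 - (starRingEnd ℂ) a * (starRingEnd ℂ) a) ≠ 0 := by
      intro h
      have h7 : (1 - (starRingEnd ℂ) a * (starRingEnd ℂ) a).im = 0 := by rw [h]; rfl
      have h8 : (1 - (starRingEnd ℂ) a * (starRingEnd ℂ) a).re = 0 := by rw [h]; rfl
      simp only [Complex.sub_re, Complex.sub_im, Complex.one_re, Complex.one_im, Complex.mul_re,
        Complex.mul_im, Complex.conj_re, Complex.conj_im] at h7 h8
      have h9 : a.im ^ 2 = 0 := by nlinarith
      have h10 : 0 < a.im ^ 2 := by positivity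
      linarith
    rw [mo, h4, h5, div_div_div_cancel_right₀ hne, mul_div_assoc, div_self h6, mul_one]

theorem mo_inj {z w : ℂ} (hz : z ∈ ball (0 : ℂ) 1) (hw : w ∈ ball (0 : ℂ) 1)
    (h : mo a z = mo a w) : z = w := by
  have h2 := re_sq_add ha
  have h0 : 1 + (starRingEnd ℂ) a * z ≠ 0 := one_add_ne (conj_norm ha) hz
  have h0' : 1 + (starRingEnd ℂ) a * w ≠ 0 := one_add_ne (conj_norm ha) hw
  rw [mo, mo, div_eq_div_iff h0 h0'] at h
  have h6 : (1 - (starRingEnd ℂ) a * (starRingEnd ℂ) a) ≠ 0 := by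
    intro h
    have h7 : (1 - (starRingEnd ℂ) a * (starRingEnd ℂ) a).im = 0 := by rw [h]; rfl
    have h8 : (1 - (starRingEnd ℂ) a * (starRingEnd ℂ) a).re = 0 := by rw [h]; rfl
    simp only [Complex.sub_re, Complex.sub_im, Complex.one_re, Complex.one_im, Complex.mul_re,
      Complex.mul_im, Complex.conj_re, Complex.conj_im] at h7 h8
    have h9 : a.im ^ 2 = 0 := by nlinarith
    have h10 : 0 < a.im ^ 2 := by positivity
    linarith
  have h11 : (1 - (starRingEnd ℂ) a * (starRingEnd ℂ) a) * (z - w) = 0 := by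
    linear_combination h
  rcases mul_eq_zero.mp h11 with h12 | h12
  · exact absurd h12 h6
  · exact sub_eq_zero.mp h12

end

/-! ### The strip map -/

section

variable {x : ℝ} (hx0 : 0 < x) (hxpi : x < Real.pi)

/-- The unimodular number `e^{ix}`. -/
noncomputable def ua (x : ℝ) : ℂ := Complex.exp (x * Complex.I)

theorem ua_re : (ua x).re = Real.cos x := by
  rw [ua, Complex.exp_ofReal_mul_I_re]

theorem ua_im : (ua x).im = Real.sin x := by
  rw [ua, Complex.exp_ofReal_mul_I_im]

theorem ua_norm : ‖ua x‖ = 1 := Complex.norm_exp_ofReal_mul_I x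

theorem ua_conj : (starRingEnd ℂ) (ua x) = Complex.exp ((-x : ℝ) * Complex.I) := by
  apply Complex.ext
  · rw [Complex.conj_re, ua_re, Complex.exp_ofReal_mul_I_re, Real.cos_neg]
  · rw [Complex.conj_im, ua_im, Complex.exp_ofReal_mul_I_im, Real.sin_neg]

/-- The vertical strip map with parameter `x`. -/
noncomputable def strip (x : ℝ) (z : ℂ) : ℂ :=
  (Complex.log (mo (ua x) z) + x * Complex.I) / (2 * Complex.I * Real.sin x)

theorem strip_re {z : ℂ} (hs : 0 < Real.sin x) :
    (strip x z).re = (Complex.arg (mo (ua x) z) + x) / (2 * Real.sin x) := by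
  have h1 : strip x z = ((Complex.arg (mo (ua x) z) + x : ℝ) / (2 * Real.sin x) : ℝ) -
      ((Real.log ‖mo (ua x) z‖ / (2 * Real.sin x) : ℝ) : ℂ) * Complex.I := by
    rw [strip, Complex.log]
    have h2 : (Real.sin x : ℂ) ≠ 0 := by exact_mod_cast hs.ne'
    push_cast
    field_simp
    ring_nf
    simp only [Complex.I_sq]
    ring
  rw [h1, Complex.sub_re, Complex.ofReal_re, Complex.mul_re, Complex.ofReal_re, Complex.ofReal_im,
    Complex.I_re, Complex.I_im]
  ring

include hx0 hxpi

theorem sin_pos' : 0 < Real.sin x := Real.sin_pos_of_pos_of_lt_pi hx0 hxpi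

theorem ua_im_pos : 0 < (ua x).im := by
  rw [ua_im]
  exact Real.sin_pos_of_pos_of_lt_pi hx0 hxpi

theorem strip_image :
    strip x '' ball 0 1 =
      {W : ℂ | (x - Real.pi) / (2 * Real.sin x) < W.re ∧ W.re < x / (2 * Real.sin x)} := by
  have hs : 0 < Real.sin x := sin_pos' hx0 hxpi
  have hs2 : 0 < 2 * Real.sin x := by linarith
  have hsC : (Real.sin x : ℂ) ≠ 0 := by exact_mod_cast hs.ne'
  apply Set.Subset.antisymm
  · rintro W ⟨z, hz, rfl⟩
    have h1 := mo_im ua_norm (ua_im_pos hx0 hxpi) hz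
    have h2 : Complex.arg (mo (ua x) z) < 0 := Complex.arg_neg_iff.mpr h1
    have h3 := Complex.neg_pi_lt_arg (mo (ua x) z)
    rw [Set.mem_ofPred_eq, strip_re hs]
    constructor
    · exact (div_lt_div_iff_of_pos_right hs2).mpr (by linarith)
    · exact (div_lt_div_iff_of_pos_right hs2).mpr (by linarith)
  · rintro W ⟨hW1, hW2⟩
    rw [div_lt_iff₀ hs2] at hW1
    rw [lt_div_iff₀ hs2] at hW2
    set ζ : ℂ := 2 * Complex.I * Real.sin x * W - x * Complex.I with hζ
    have him : ζ.im = W.re * (2 * Real.sin x) - x := by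
      rw [hζ]
      simp only [Complex.sub_im, Complex.mul_im, Complex.mul_re, Complex.I_re, Complex.I_im,
        Complex.ofReal_re, Complex.ofReal_im]
      norm_num
      ring
    have h1 : -Real.pi < ζ.im := by rw [him]; linarith
    have h2 : ζ.im < 0 := by rw [him]; linarith
    have h3 : (Complex.exp ζ).im < 0 := by
      rw [Complex.exp_im]
      exact mul_neg_of_pos_of_neg (Real.exp_pos _) (Real.sin_neg_of_neg_of_neg_pi_lt h2 h1)
    obtain ⟨z, hz, hzv⟩ := mo_surj ua_norm (ua_im_pos hx0 hxpi) h3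
    refine ⟨z, hz, ?_⟩
    rw [strip, hzv, Complex.log_exp h1 (by linarith [Real.pi_pos]), hζ]
    field_simp
    ring

theorem strip_diffAt {z : ℂ} (hz : z ∈ ball (0 : ℂ) 1) :
    HasDerivAt (strip x) (1 / ((1 + ua x * z) * (1 + (starRingEnd ℂ) (ua x) * z))) z := by
  have hs : 0 < Real.sin x := sin_pos' hx0 hxpi
  have hsC : (Real.sin x : ℂ) ≠ 0 := by exact_mod_cast hs.ne'
  have h0 : 1 + (starRingEnd ℂ) (ua x) * z ≠ 0 := one_add_ne (conj_norm ua_norm) hz
  have h0' : 1 + (ua x) * z ≠ 0 := one_add_ne ua_norm hz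
  have h1 := mo_im ua_norm (ua_im_pos hx0 hxpi) hz
  have hslit : mo (ua x) z ∈ Complex.slitPlane := by
    rw [Complex.mem_slitPlane_iff]
    right
    exact h1.ne
  have hmc := mul_conj_one (a := ua x) ua_norm
  have hane : ua x ≠ 0 := by
    intro h
    have := ua_norm (x := x)
    rw [h] at this
    simp at this
  have hA : (starRingEnd ℂ) (ua x) + z ≠ 0 := by
    intro h
    apply h0'
    have h2 : ua x * ((starRingEnd ℂ) (ua x) + z) = 0 := by rw [h, mul_zero]
    linear_combination h2 - hmc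
  have hmo : HasDerivAt (mo (ua x))
      ((1 * (1 + (starRingEnd ℂ) (ua x) * z) - ((starRingEnd ℂ) (ua x) + z) *
        ((starRingEnd ℂ) (ua x) * 1)) / (1 + (starRingEnd ℂ) (ua x) * z) ^ 2) z := by
    have h3 : HasDerivAt (fun z : ℂ => (starRingEnd ℂ) (ua x) + z) 1 z :=
      (hasDerivAt_id z).const_add _
    have h4 : HasDerivAt (fun z : ℂ => 1 + (starRingEnd ℂ) (ua x) * z)
        ((starRingEnd ℂ) (ua x) * 1) z :=
      ((hasDerivAt_id z).const_mul _).const_add _
    exact h3.div h4 h0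
  have hlog := hmo.clog hslit
  have h5 := (hlog.add_const (x * Complex.I)).div_const (2 * Complex.I * Real.sin x)
  have h6 : (2 * Complex.I * (Real.sin x : ℂ)) = ua x - (starRingEnd ℂ) (ua x) := by
    rw [Complex.sub_conj, ua_im]
    push_cast
    ring
  refine HasDerivAt.congr_deriv h5 ?_
  rw [h6]
  have h7 : ua x - (starRingEnd ℂ) (ua x) ≠ 0 := by
    rw [← h6]
    exact mul_ne_zero (mul_ne_zero two_ne_zero Complex.I_ne_zero) hsC
  rw [mo]
  generalize (starRingEnd ℂ) (ua x) = b at *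
  generalize ua x = a at *
  rw [div_div_div_eq, div_div,
    div_eq_div_iff (mul_ne_zero (mul_ne_zero (pow_ne_zero 2 h0) hA) h7) (mul_ne_zero h0' h0)]
  linear_combination (-(1 + b * z) ^ 3) * hmc

theorem strip_convexMap : IsConvexMap (strip x) where
  diff := fun z hz => (strip_diffAt hx0 hxpi hz).differentiableAt.differentiableWithinAt
  inj := by
    intro z hz w hw h
    have hs : 0 < Real.sin x := sin_pos' hx0 hxpi
    have hsC : (Real.sin x : ℂ) ≠ 0 := by exact_mod_cast hs.ne'
    have h1 : (2 * Complex.I * (Real.sin x : ℂ)) ≠ 0 :=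
      mul_ne_zero (mul_ne_zero two_ne_zero Complex.I_ne_zero) hsC
    simp only [strip] at h
    rw [div_left_inj' h1, add_left_inj] at h
    have h2 : ∀ {u : ℂ}, u ∈ ball (0 : ℂ) 1 → mo (ua x) u ≠ 0 := by
      intro u hu h3
      have h4 := mo_im ua_norm (ua_im_pos hx0 hxpi) hu
      rw [h3] at h4
      simp at h4
    have h5 := congrArg Complex.exp h
    rw [Complex.exp_log (h2 hz), Complex.exp_log (h2 hw)] at h5
    exact mo_inj ua_norm (ua_im_pos hx0 hxpi) hz hw h5
  zero := by
    rw [strip, mo, add_zero, mul_zero, add_zero, div_one, ua_conj, Complex.log_exp]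
    · push_cast
      ring
    · simp
      linarith
    · simp
      linarith [Real.pi_pos]
  deriv_one := by
    have h := strip_diffAt hx0 hxpi (z := 0) (by simp)
    rw [h.deriv]
    simp
  convex := by
    rw [strip_image hx0 hxpi]
    have h1 : {W : ℂ | (x - Real.pi) / (2 * Real.sin x) < W.re ∧ W.re < x / (2 * Real.sin x)} =
        Complex.reLm ⁻¹' (Set.Ioo ((x - Real.pi) / (2 * Real.sin x)) (x / (2 * Real.sin x))) := by
      ext W
      simp
    rw [h1]
    exact (convex_Ioo _ _).linear_preimage Complex.reLm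

theorem strip_notMem : ((x / (2 * Real.sin x) : ℝ) : ℂ) ∉ strip x '' ball 0 1 := by
  rw [strip_image hx0 hxpi]
  rintro ⟨_, h2⟩
  rw [Complex.ofReal_re] at h2
  exact lt_irrefl _ h2

end

end Pool.Agent.MobConv
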