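import Pool.Agent.Lib.MP_4b1e7e_an.Sound

set_option autoImplicit false

/-!
The numerical part: a lower bound for the coefficient of order 400 by enclosures.
-/

namespace Pool.Agent.MobConv

open Finset

set_option maxRecDepth 100000 in
theorem chkXY_data : chkXY dXY = true := by decide +kernel

set_option maxRecDepth 100000 in
theorem chkP_data : chkP 1 dXY.tail dP = true := by decide +kernel

set_option maxRecDepth 100000 in
theorem chkU_data : chkU dP dU = true := by decide +kernel

set_option maxRecDepth 100000 in
theorem shape_data : decide (dXY.length = 401) = true ∧ decide (dP.length = 400) = true ∧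
    decide (dU.length = 401) = true ∧ decide (dXY.head? = some (1000000000000, 0)) = true ∧
    decide (dU.head? = some (16623893813, 16623893949)) = true := by
  refine ⟨?_, ?_, ?_, ?_, ?_⟩ <;> decide +kernel

theorem num_bound (u : ℕ → ℝ) (hu0 : u 0 = 1)
    (hu : ∀ n, u (n + 1) = ∑ i ∈ range (n + 1), pr (i + 1) * u (n - i)) :
    0.0166238 ≤ u 400 := by
  obtain ⟨h1, h2, h3, h4, h5⟩ := shape_data
  rw [decide_eq_true_eq] at h1 h2 h3 h4 h5
  have hxy : EncXY 0 dXY := by
    obtain ⟨a, l, hal⟩ : ∃ a l, dXY = a :: l := by
      cases h : dXY with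
      | nil => rw [h] at h1; simp at h1
      | cons a l => exact ⟨a, l, rfl⟩
    have h6 := chkXY_data
    rw [hal] at h1 h4 h6 ⊢
    rw [List.head?_cons, Option.some_inj] at h4
    refine chkXY_sound l 0 a ?_ h6 ?_
    · rw [List.length_cons] at h1
      omega
    · rw [h4]
      simp
  have hxy' : EncXY 1 dXY.tail := by
    cases h : dXY with
    | nil => trivial
    | cons a l =>
      rw [h] at hxy
      exact hxy.2
  have hP : EncP pr 1 dP := chkP_sound _ _ 1 le_rfl hxy' chkP_data
  have hU : EncU u 400 dU := chkU_sound pr u hu0 hu dP hP dU 400 h3 (by omega) chkU_data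
  cases h : dU with
  | nil => rw [h] at h3; simp at h3
  | cons a l =>
    rw [h] at hU h5
    rw [List.head?_cons, Option.some_inj] at h5
    obtain ⟨⟨_, h6, _⟩, _⟩ := hU
    rw [h5] at h6
    push_cast at h6
    norm_num at h6 ⊢
    linarith

end Pool.Agent.MobConv
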