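import Mathlib
import Pool.Agent.Lib.MP_4b1e7e_an.Data

set_option autoImplicit false

/-!
The numerical part: a lower bound for the coefficient of order 400 by enclosures.
-/

namespace Pool.Agent.MobConv

open Finset

/-! ### Checks -/

/-- One rotation by `e^{i/100}`, up to rounding. -/
def okStep (a b : ℤ × ℤ) : Bool :=
  decide (2 * (b.1 * 1200000000000 - (a.1 * 1199940000500 - a.2 * 11999800001)) ≤
    1200000000000) &&
  decide (-1200000000000 ≤
    2 * (b.1 * 1200000000000 - (a.1 * 1199940000500 - a.2 * 11999800001))) &&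
  decide (2 * (b.2 * 1200000000000 - (a.1 * 11999800001 + a.2 * 1199940000500)) ≤
    1200000000000) &&
  decide (-1200000000000 ≤
    2 * (b.2 * 1200000000000 - (a.1 * 11999800001 + a.2 * 1199940000500)))

/-- The check of the list of rotations. -/
def chkXY : List (ℤ × ℤ) → Bool
  | [] => true
  | a :: l => (match l with
    | [] => true
    | b :: _ => okStep a b) && chkXY l

/-- The check of one enclosure of `2 sin (k / 100) / (k (π - 1 / 100))`. -/
def okP (k : ℤ) (a p : ℤ × ℤ) : Bool :=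
  (bif decide (0 ≤ p.1) then
    decide (p.1 * k * 31315926535897933 ≤ 2 * (a.2 - 4 * k) * 10000000000000000)
  else decide (p.1 * k * 31315926535897932 ≤ 2 * (a.2 - 4 * k) * 10000000000000000)) &&
  (bif decide (0 ≤ p.2) then
    decide (2 * (a.2 + 4 * k) * 10000000000000000 ≤ p.2 * k * 31315926535897932)
  else decide (2 * (a.2 + 4 * k) * 10000000000000000 ≤ p.2 * k * 31315926535897933))

/-- The check of the list of enclosures of `p`. -/
def chkP : ℕ → List (ℤ × ℤ) → List (ℤ × ℤ) → Bool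
  | _, _, [] => true
  | _, [], _ :: _ => false
  | k, a :: l, p :: ps => okP k a p && chkP (k + 1) l ps

/-- Lower bound of a scalar product (nonnegative right hand side). -/
def dotLo : List (ℤ × ℤ) → List (ℤ × ℤ) → ℤ
  | p :: ps, u :: us => (bif decide (0 ≤ p.1) then p.1 * u.1 else p.1 * u.2) + dotLo ps us
  | _, _ => 0

/-- Upper bound of a scalar product (nonnegative right hand side). -/
def dotHi : List (ℤ × ℤ) → List (ℤ × ℤ) → ℤ
  | p :: ps, u :: us => (bif decide (0 ≤ p.2) then p.2 * u.2 else p.2 * u.1) + dotHi ps us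
  | _, _ => 0

/-- The check of the enclosures of `u`. -/
def chkU (P : List (ℤ × ℤ)) : List (ℤ × ℤ) → Bool
  | [] => true
  | a :: l => (match l with
    | [] => decide (a.1 = 1000000000000) && decide (a.2 = 1000000000000)
    | _ :: _ => decide (0 ≤ a.1) && decide (1000000000000 * a.1 ≤ dotLo P l) &&
      decide (dotHi P l ≤ 1000000000000 * a.2)) && chkU P l

/-! ### Soundness -/

/-- The list encloses `10 ^ 12 e^{i k / 100}`, `k = j, j + 1, ...`. -/
def EncXY : ℕ → List (ℤ × ℤ) → Prop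
  | _, [] => True
  | k, a :: l => ‖((a.1 : ℂ) + a.2 * Complex.I) -
      1000000000000 * Complex.exp ((k / 100 : ℝ) * Complex.I)‖ ≤ 3 * k ∧ EncXY (k + 1) l

theorem exp_approx : ‖Complex.exp ((1 / 100 : ℝ) * Complex.I) -
    ((1199940000500 : ℂ) + 11999800001 * Complex.I) / 1200000000000‖ ≤ 1 / 10 ^ 14 := by
  have h1 := Complex.exp_bound (x := ((1 / 100 : ℝ) * Complex.I)) (by
    rw [norm_mul, Complex.norm_I, mul_one, Complex.norm_real, Real.norm_eq_abs]
    rw [abs_of_pos] <;> norm_num) (n := 6) (by norm_num)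
  have h2 : ∑ m ∈ range 6, ((1 / 100 : ℝ) * Complex.I) ^ m / (m.factorial : ℂ) =
      ((1199940000500 : ℂ) + 11999800001 * Complex.I) / 1200000000000 := by
    simp only [sum_range_succ, range_zero, sum_empty, Nat.factorial]
    push_cast
    have h3 : Complex.I ^ 2 = -1 := Complex.I_sq
    have h4 : Complex.I ^ 3 = -Complex.I := by rw [pow_succ, h3]; ring
    have h5 : Complex.I ^ 4 = 1 := by rw [pow_succ, h4]; rw [neg_mul, Complex.I_mul_I]; norm_num
    have h6 : Complex.I ^ 5 = Complex.I := by rw [pow_succ, h5, one_mul]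
    simp only [mul_pow, h3, h4, h5, h6]
    ring
  rw [h2] at h1
  refine h1.trans ?_
  rw [norm_mul, Complex.norm_I, mul_one, Complex.norm_real, Real.norm_eq_abs, abs_of_pos (by norm_num)]
  norm_num [Nat.factorial]

theorem step_sound {k : ℕ} (hk : k ≤ 1000) {a b : ℤ × ℤ} (hok : okStep a b = true)
    (ha : ‖((a.1 : ℂ) + a.2 * Complex.I) -
      1000000000000 * Complex.exp ((k / 100 : ℝ) * Complex.I)‖ ≤ 3 * k) :
    ‖((b.1 : ℂ) + b.2 * Complex.I) -
      1000000000000 * Complex.exp (((k + 1 : ℕ) / 100 : ℝ) * Complex.I)‖ ≤ 3 * ((k + 1 : ℕ) : ℝ) := by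
  simp only [okStep, Bool.and_eq_true, decide_eq_true_eq] at hok
  obtain ⟨⟨⟨h1, h2⟩, h3⟩, h4⟩ := hok
  set Z : ℂ := (a.1 : ℂ) + a.2 * Complex.I with hZ
  set Z' : ℂ := (b.1 : ℂ) + b.2 * Complex.I with hZ'
  set W : ℂ := (1199940000500 : ℂ) + 11999800001 * Complex.I with hW
  set E : ℂ := Complex.exp ((k / 100 : ℝ) * Complex.I) with hE
  set E1 : ℂ := Complex.exp ((1 / 100 : ℝ) * Complex.I) with hE1
  have hE' : Complex.exp (((k + 1 : ℕ) / 100 : ℝ) * Complex.I) = E * E1 := by
    rw [hE, hE1, ← Complex.exp_add]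
    congr 1
    push_cast
    ring
  have hEn : ‖E‖ = 1 := Complex.norm_exp_ofReal_mul_I _
  have hE1n : ‖E1‖ = 1 := Complex.norm_exp_ofReal_mul_I _
  have hZn : ‖Z‖ ≤ 2000000000000 := by
    have h5 : Z = (Z - 1000000000000 * E) + 1000000000000 * E := by ring
    have h6 : ‖(1000000000000 : ℂ) * E‖ = 1000000000000 := by
      rw [norm_mul, hEn]; norm_num
    calc ‖Z‖ = ‖(Z - 1000000000000 * E) + 1000000000000 * E‖ := by rw [← h5]
      _ ≤ ‖Z - 1000000000000 * E‖ + ‖1000000000000 * E‖ := norm_add_le _ _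
      _ ≤ 3 * k + 1000000000000 := by rw [h6]; linarith
      _ ≤ 2000000000000 := by
        have : (k : ℝ) ≤ 1000 := by exact_mod_cast hk
        linarith
  -- the rounding error
  have hround : ‖Z' - Z * (W / 1200000000000)‖ ≤ 1 := by
    have h5 : Z' - Z * (W / 1200000000000) =
        (((b.1 * 1200000000000 - (a.1 * 1199940000500 - a.2 * 11999800001) : ℤ) : ℂ) +
        ((b.2 * 1200000000000 - (a.1 * 11999800001 + a.2 * 1199940000500) : ℤ) : ℂ) *
          Complex.I) / 1200000000000 := by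
      rw [hZ, hZ', hW]
      push_cast
      field_simp
      ring_nf
      rw [Complex.I_sq]
      ring
    rw [h5, norm_div]
    have h6 : ‖(1200000000000 : ℂ)‖ = 1200000000000 := by norm_num
    rw [h6, div_le_one (by norm_num)]
    refine (norm_add_le _ _).trans ?_
    rw [norm_mul, Complex.norm_I, mul_one, Complex.norm_intCast, Complex.norm_intCast]
    have h7 : |((b.1 * 1200000000000 - (a.1 * 1199940000500 - a.2 * 11999800001) : ℤ) : ℝ)| ≤
        600000000000 := by
      rw [abs_le]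
      constructor
      · have : (-1200000000000 : ℤ) ≤ 2 * (b.1 * 1200000000000 -
          (a.1 * 1199940000500 - a.2 * 11999800001)) := h2
        have : ((-1200000000000 : ℤ) : ℝ) ≤ ((2 * (b.1 * 1200000000000 -
          (a.1 * 1199940000500 - a.2 * 11999800001)) : ℤ) : ℝ) := by exact_mod_cast this
        push_cast at this ⊢
        linarith
      · have : ((2 * (b.1 * 1200000000000 -
          (a.1 * 1199940000500 - a.2 * 11999800001)) : ℤ) : ℝ) ≤ ((1200000000000 : ℤ) : ℝ) := by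
          exact_mod_cast h1
        push_cast at this ⊢
        linarith
    have h8 : |((b.2 * 1200000000000 - (a.1 * 11999800001 + a.2 * 1199940000500) : ℤ) : ℝ)| ≤
        600000000000 := by
      rw [abs_le]
      constructor
      · have : ((-1200000000000 : ℤ) : ℝ) ≤ ((2 * (b.2 * 1200000000000 -
          (a.1 * 11999800001 + a.2 * 1199940000500)) : ℤ) : ℝ) := by exact_mod_cast h4
        push_cast at this ⊢
        linarith
      · have : ((2 * (b.2 * 1200000000000 -
          (a.1 * 11999800001 + a.2 * 1199940000500)) : ℤ) : ℝ) ≤ ((1200000000000 : ℤ) : ℝ) := by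
          exact_mod_cast h3
        push_cast at this ⊢
        linarith
    linarith
  have happ := exp_approx
  rw [hE']
  have h9 : Z' - 1000000000000 * (E * E1) = (Z' - Z * (W / 1200000000000)) +
      (-(Z * (E1 - W / 1200000000000))) + (Z - 1000000000000 * E) * E1 := by ring
  rw [h9]
  refine (norm_add₃_le).trans ?_
  rw [norm_neg, norm_mul, norm_mul, hE1n, mul_one]
  have h10 : ‖Z‖ * ‖E1 - W / 1200000000000‖ ≤ 2000000000000 * (1 / 10 ^ 14) :=
    mul_le_mul hZn happ (norm_nonneg _) (by norm_num)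
  push_cast
  norm_num at h10 ⊢
  linarith

theorem chkXY_sound : ∀ (l : List (ℤ × ℤ)) (k : ℕ) (a : ℤ × ℤ), k + l.length ≤ 1000 →
    chkXY (a :: l) = true → ‖((a.1 : ℂ) + a.2 * Complex.I) -
      1000000000000 * Complex.exp ((k / 100 : ℝ) * Complex.I)‖ ≤ 3 * k → EncXY k (a :: l)
  | [], k, a, _, _, ha => ⟨ha, trivial⟩
  | b :: l, k, a, hk, hc, ha => by
    rw [chkXY, Bool.and_eq_true] at hc
    rw [List.length_cons] at hk
    have h1 := step_sound (by omega) hc.1 ha
    exact ⟨ha, chkXY_sound l (k + 1) b (by omega) hc.2 h1⟩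

/-- The numbers `p k`. -/
noncomputable def pr (k : ℕ) : ℝ := 2 * Real.sin (k / 100) / (k * (Real.pi - 1 / 100))

/-- Enclosures of `10 ^ 12 p k`. -/
def EncP (p : ℕ → ℝ) : ℕ → List (ℤ × ℤ) → Prop
  | _, [] => True
  | k, a :: l => ((a.1 : ℝ) ≤ 1000000000000 * p k ∧ 1000000000000 * p k ≤ a.2) ∧ EncP p (k + 1) l

theorem okP_sound {k : ℕ} (hk : 1 ≤ k) {a p : ℤ × ℤ} (hok : okP k a p = true)
    (ha : ‖((a.1 : ℂ) + a.2 * Complex.I) -
      1000000000000 * Complex.exp ((k / 100 : ℝ) * Complex.I)‖ ≤ 3 * k) :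
    (p.1 : ℝ) ≤ 1000000000000 * pr k ∧ 1000000000000 * pr k ≤ p.2 := by
  have h1 : |(a.2 : ℝ) - 1000000000000 * Real.sin (k / 100)| ≤ 3 * k := by
    refine le_trans ?_ ((Complex.abs_im_le_norm _).trans ha)
    apply le_of_eq
    congr 1
    simp only [Complex.sub_im, Complex.add_im, Complex.mul_im, Complex.intCast_im,
      Complex.intCast_re, Complex.I_im, Complex.I_re, Complex.exp_ofReal_mul_I_im]
    norm_num
  rw [abs_le] at h1
  have hk0 : (1 : ℝ) ≤ k := by exact_mod_cast hk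
  have hpl := Real.pi_gt_d20
  have hpu := Real.pi_lt_d20
  have hx1 : (31315926535897932 : ℝ) ≤ 10000000000000000 * (Real.pi - 1 / 100) := by
    norm_num at hpl ⊢
    linarith
  have hx2 : 10000000000000000 * (Real.pi - 1 / 100) ≤ (31315926535897933 : ℝ) := by
    norm_num at hpu ⊢
    linarith
  have hx0 : 0 < Real.pi - 1 / 100 := by linarith
  have hkx : 0 < k * (Real.pi - 1 / 100) := by positivity
  set x := Real.pi - 1 / 100 with hx
  have hpr : pr k * (k * x) = 2 * Real.sin (k / 100) := by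
    rw [pr, ← hx, div_mul_cancel₀ _ hkx.ne']
  rw [okP, Bool.and_eq_true] at hok
  obtain ⟨hl, hu⟩ := hok
  constructor
  · -- lower bound
    have h2 : (p.1 : ℝ) * k * (10000000000000000 * x) ≤
        2 * ((a.2 : ℝ) - 4 * k) * 10000000000000000 := by
      by_cases hp : 0 ≤ p.1
      · rw [show decide (0 ≤ p.1) = true from decide_eq_true hp, cond_true, decide_eq_true_eq] at hl
        have h3 : ((p.1 * k * 31315926535897933 : ℤ) : ℝ) ≤
          ((2 * (a.2 - 4 * k) * 10000000000000000 : ℤ) : ℝ) := by exact_mod_cast hl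
        push_cast at h3
        have h4 : 0 ≤ (p.1 : ℝ) * k := mul_nonneg (by exact_mod_cast hp) (by linarith)
        have h5 := mul_le_mul_of_nonneg_left hx2 h4
        linarith
      · rw [show decide (0 ≤ p.1) = false from decide_eq_false hp, cond_false,
          decide_eq_true_eq] at hl
        have h3 : ((p.1 * k * 31315926535897932 : ℤ) : ℝ) ≤
          ((2 * (a.2 - 4 * k) * 10000000000000000 : ℤ) : ℝ) := by exact_mod_cast hl
        push_cast at h3
        have h6 : (p.1 : ℝ) ≤ 0 := by exact_mod_cast (not_le.mp hp).le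
        have h4 : (p.1 : ℝ) * k ≤ 0 := mul_nonpos_of_nonpos_of_nonneg h6 (by linarith)
        have h5 := mul_le_mul_of_nonpos_left hx1 h4
        linarith
    have h7 : (p.1 : ℝ) * (k * x) ≤ 1000000000000 * pr k * (k * x) := by
      rw [mul_assoc (1000000000000 : ℝ), hpr]
      nlinarith
    exact le_of_mul_le_mul_right h7 hkx
  · have h2 : 2 * ((a.2 : ℝ) + 4 * k) * 10000000000000000 ≤
        (p.2 : ℝ) * k * (10000000000000000 * x) := by
      by_cases hp : 0 ≤ p.2
      · rw [show decide (0 ≤ p.2) = true from decide_eq_true hp, cond_true, decide_eq_true_eq] at hu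
        have h3 : ((2 * (a.2 + 4 * k) * 10000000000000000 : ℤ) : ℝ) ≤
          ((p.2 * k * 31315926535897932 : ℤ) : ℝ) := by exact_mod_cast hu
        push_cast at h3
        have h4 : 0 ≤ (p.2 : ℝ) * k := mul_nonneg (by exact_mod_cast hp) (by linarith)
        have h5 := mul_le_mul_of_nonneg_left hx1 h4
        linarith
      · rw [show decide (0 ≤ p.2) = false from decide_eq_false hp, cond_false,
          decide_eq_true_eq] at hu
        have h3 : ((2 * (a.2 + 4 * k) * 10000000000000000 : ℤ) : ℝ) ≤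
          ((p.2 * k * 31315926535897933 : ℤ) : ℝ) := by exact_mod_cast hu
        push_cast at h3
        have h6 : (p.2 : ℝ) ≤ 0 := by exact_mod_cast (not_le.mp hp).le
        have h4 : (p.2 : ℝ) * k ≤ 0 := mul_nonpos_of_nonpos_of_nonneg h6 (by linarith)
        have h5 := mul_le_mul_of_nonpos_left hx2 h4
        linarith
    have h7 : 1000000000000 * pr k * (k * x) ≤ (p.2 : ℝ) * (k * x) := by
      rw [mul_assoc (1000000000000 : ℝ), hpr]
      nlinarith
    exact le_of_mul_le_mul_right h7 hkx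

theorem chkP_sound : ∀ (l ps : List (ℤ × ℤ)) (k : ℕ), 1 ≤ k → EncXY k l → chkP k l ps = true →
    EncP pr k ps
  | _, [], _, _, _, _ => trivial
  | [], _ :: _, _, _, _, hc => by simp [chkP] at hc
  | a :: l, p :: ps, k, hk, he, hc => by
    rw [chkP, Bool.and_eq_true] at hc
    exact ⟨okP_sound hk hc.1 he.1, chkP_sound l ps (k + 1) (by omega) he.2 hc.2⟩

/-- Enclosures of `10 ^ 12 u n, 10 ^ 12 u (n - 1), ..., 10 ^ 12 u 0`. -/
def EncU (u : ℕ → ℝ) : ℕ → List (ℤ × ℤ) → Prop
  | _, [] => False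
  | 0, a :: l => (0 ≤ a.1 ∧ (a.1 : ℝ) ≤ 1000000000000 * u 0 ∧ 1000000000000 * u 0 ≤ a.2) ∧ l = []
  | n + 1, a :: l => (0 ≤ a.1 ∧ (a.1 : ℝ) ≤ 1000000000000 * u (n + 1) ∧
      1000000000000 * u (n + 1) ≤ a.2) ∧ EncU u n l

theorem term_lo {pl pu ul uu : ℤ} {p u : ℝ} (h1 : (pl : ℝ) ≤ p) (_h2 : p ≤ pu) (h3 : 0 ≤ ul)
    (h4 : (ul : ℝ) ≤ u) (h5 : u ≤ uu) :
    (((bif decide (0 ≤ pl) then pl * ul else pl * uu) : ℤ) : ℝ) ≤ p * u := by
  have h3' : (0 : ℝ) ≤ ul := by exact_mod_cast h3
  by_cases h : 0 ≤ pl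
  · have h' : (0 : ℝ) ≤ pl := by exact_mod_cast h
    rw [decide_eq_true h, cond_true]
    push_cast
    exact mul_le_mul h1 h4 h3' (h'.trans h1)
  · have h' : (pl : ℝ) ≤ 0 := by exact_mod_cast (not_le.mp h).le
    rw [decide_eq_false h, cond_false]
    push_cast
    calc (pl : ℝ) * uu ≤ pl * u := mul_le_mul_of_nonpos_left h5 h'
      _ ≤ p * u := mul_le_mul_of_nonneg_right h1 (h3'.trans h4)

theorem term_hi {pl pu ul uu : ℤ} {p u : ℝ} (_h1 : (pl : ℝ) ≤ p) (h2 : p ≤ pu) (h3 : 0 ≤ ul)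
    (h4 : (ul : ℝ) ≤ u) (h5 : u ≤ uu) :
    p * u ≤ (((bif decide (0 ≤ pu) then pu * uu else pu * ul) : ℤ) : ℝ) := by
  have h3' : (0 : ℝ) ≤ ul := by exact_mod_cast h3
  by_cases h : 0 ≤ pu
  · have h' : (0 : ℝ) ≤ pu := by exact_mod_cast h
    rw [decide_eq_true h, cond_true]
    push_cast
    calc p * u ≤ pu * u := mul_le_mul_of_nonneg_right h2 (h3'.trans h4)
      _ ≤ pu * uu := mul_le_mul_of_nonneg_left h5 h'
  · have h' : (pu : ℝ) ≤ 0 := by exact_mod_cast (not_le.mp h).le
    rw [decide_eq_false h, cond_false]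
    push_cast
    calc p * u ≤ pu * u := mul_le_mul_of_nonneg_right h2 (h3'.trans h4)
      _ ≤ pu * ul := mul_le_mul_of_nonpos_left h4 h'

theorem dot_sound (p u : ℕ → ℝ) : ∀ (n : ℕ) (ps us : List (ℤ × ℤ)) (j : ℕ), EncP p j ps →
    EncU u n us → n < ps.length →
    (dotLo ps us : ℝ) ≤ ∑ i ∈ range (n + 1), (1000000000000 * p (j + i)) *
      (1000000000000 * u (n - i)) ∧
    ∑ i ∈ range (n + 1), (1000000000000 * p (j + i)) *
      (1000000000000 * u (n - i)) ≤ (dotHi ps us : ℝ)
  | _, [], _, _, _, _, hl => by simp at hl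
  | _, _ :: _, [], _, _, he, _ => by simp [EncU] at he
  | 0, q :: qs, a :: l, j, hp, he, _ => by
    obtain ⟨⟨h1, h2, h3⟩, rfl⟩ := he
    obtain ⟨⟨h4, h5⟩, _⟩ := hp
    have e1 : dotLo (q :: qs) [a] = (bif decide (0 ≤ q.1) then q.1 * a.1 else q.1 * a.2) + 0 := by
      cases qs <;> rfl
    have e2 : dotHi (q :: qs) [a] = (bif decide (0 ≤ q.2) then q.2 * a.2 else q.2 * a.1) + 0 := by
      cases qs <;> rfl
    rw [e1, e2, add_zero, add_zero]
    simp only [zero_add, sum_range_one, add_zero, Nat.sub_zero]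
    exact ⟨term_lo h4 h5 h1 h2 h3, term_hi h4 h5 h1 h2 h3⟩
  | n + 1, q :: qs, a :: l, j, hp, he, hl => by
    obtain ⟨⟨h1, h2, h3⟩, h6⟩ := he
    obtain ⟨⟨h4, h5⟩, h7⟩ := hp
    rw [List.length_cons] at hl
    obtain ⟨h8, h9⟩ := dot_sound p u n qs l (j + 1) h7 h6 (by omega)
    have e1 : dotLo (q :: qs) (a :: l) =
      (bif decide (0 ≤ q.1) then q.1 * a.1 else q.1 * a.2) + dotLo qs l := rfl
    have e2 : dotHi (q :: qs) (a :: l) =
      (bif decide (0 ≤ q.2) then q.2 * a.2 else q.2 * a.1) + dotHi qs l := rfl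
    rw [e1, e2, sum_range_succ']
    have e3 : ∀ i ∈ range (n + 1), (1000000000000 * p (j + (i + 1))) *
        (1000000000000 * u (n + 1 - (i + 1))) = (1000000000000 * p (j + 1 + i)) *
        (1000000000000 * u (n - i)) := by
      intro i _
      rw [show j + (i + 1) = j + 1 + i by ring, Nat.add_sub_add_right]
    rw [sum_congr rfl e3, add_zero, Nat.sub_zero]
    have h10 := term_lo h4 h5 h1 h2 h3
    have h11 := term_hi h4 h5 h1 h2 h3
    push_cast at h10 h11 ⊢
    constructor <;> linarith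

theorem chkU_sound (p u : ℕ → ℝ) (hu0 : u 0 = 1)
    (hu : ∀ n, u (n + 1) = ∑ i ∈ range (n + 1), p (i + 1) * u (n - i)) (P : List (ℤ × ℤ))
    (hP : EncP p 1 P) : ∀ (l : List (ℤ × ℤ)) (n : ℕ), l.length = n + 1 → n ≤ P.length →
      chkU P l = true → EncU u n l
  | [], _, hl, _, _ => by simp at hl
  | [a], n, hl, _, hc => by
    obtain rfl : n = 0 := by simpa using hl.symm
    simp only [chkU, Bool.and_eq_true, decide_eq_true_eq] at hc
    obtain ⟨⟨h1, h2⟩, _⟩ := hc
    refine ⟨⟨by rw [h1]; norm_num, ?_, ?_⟩, rfl⟩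
    · rw [h1, hu0]; norm_num
    · rw [h2, hu0]; norm_num
  | a :: b :: l, n, hl, hn, hc => by
    obtain ⟨m, rfl⟩ : ∃ m, n = m + 1 := ⟨l.length, by simp at hl; omega⟩
    rw [chkU, Bool.and_eq_true] at hc
    obtain ⟨h1, h2⟩ := hc
    simp only [Bool.and_eq_true, decide_eq_true_eq] at h1
    obtain ⟨⟨h3, h4⟩, h5⟩ := h1
    have h6 := chkU_sound p u hu0 hu P hP (b :: l) m (by simpa using hl) (by omega) h2
    obtain ⟨h7, h8⟩ := dot_sound p u m P (b :: l) 1 hP h6 (by omega)
    have h9 : ∑ i ∈ range (m + 1), (1000000000000 * p (1 + i)) * (1000000000000 * u (m - i)) =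
        1000000000000 * (1000000000000 * u (m + 1)) := by
      rw [hu, mul_sum, mul_sum]
      refine sum_congr rfl fun i _ => ?_
      rw [add_comm 1 i]
      ring
    rw [h9] at h7 h8
    have h10 : ((1000000000000 * a.1 : ℤ) : ℝ) ≤ (dotLo P (b :: l) : ℝ) := by exact_mod_cast h4
    have h11 : (dotHi P (b :: l) : ℝ) ≤ ((1000000000000 * a.2 : ℤ) : ℝ) := by exact_mod_cast h5
    push_cast at h10 h11
    refine ⟨⟨h3, ?_, ?_⟩, h6⟩
    · linarith
    · linarith

end Pool.Agent.MobConv
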