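import Mathlib

/-!
# The length of the inversion of a closed convex curve, in real variables

`A` is the modulus of the inverted curve, `ρ` the speed of the argument of its derivative measured
by the radius vector, `α` the angle between the radius vector and the tangent, `κ ≥ 0` the speed of
turning of the convex curve.
-/

set_option autoImplicit false

namespace Pool.Agent.MobConv

open Set Filter Topology MeasureTheory

/-- First time at which a level is reached. -/
theorem first_hit {f : ℝ → ℝ} {a b c : ℝ} (hab : a ≤ b) (hf : ContinuousOn f (Icc a b))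
    (ha : f a < c) (hb : c ≤ f b) : ∃ t ∈ Ioc a b, f t = c ∧ ∀ s ∈ Ico a t, f s < c := by
  set S : Set ℝ := {t ∈ Icc a b | c ≤ f t} with hS
  have hSne : S.Nonempty := ⟨b, ⟨hab, le_rfl⟩, hb⟩
  have hSbd : BddBelow S := ⟨a, fun t ht => ht.1.1⟩
  have hScl : IsClosed S := hf.preimage_isClosed_of_isClosed isClosed_Icc isClosed_Ici
  have hmem : sInf S ∈ S := hScl.csInf_mem hSne hSbd
  set t := sInf S with ht
  have hlt : ∀ s ∈ Ico a t, f s < c := by
    intro s hs
    by_contra hcon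
    push Not at hcon
    have h1 : s ∈ S := ⟨⟨hs.1, hs.2.le.trans hmem.1.2⟩, hcon⟩
    exact absurd (csInf_le hSbd h1) (not_le.2 hs.2)
  have hat : a < t := by
    rcases eq_or_lt_of_le hmem.1.1 with h | h
    · exact absurd hmem.2 (not_le.2 (h ▸ ha))
    · exact h
  refine ⟨t, ⟨hat, hmem.1.2⟩, le_antisymm ?_ hmem.2, hlt⟩
  have h1 : ContinuousWithinAt f (Icc a b) t := hf t hmem.1
  have h2 : Tendsto f (𝓝[<] t) (𝓝 (f t)) := by
    refine (h1.mono_of_mem_nhdsWithin ?_).tendsto
    have : Ioo a t ∈ 𝓝[<] t := Ioo_mem_nhdsLT hat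
    exact mem_of_superset this fun x hx => ⟨hx.1.le, hx.2.le.trans hmem.1.2⟩
  refine le_of_tendsto h2 ?_
  filter_upwards [Ioo_mem_nhdsLT hat] with s hs
  exact (hlt s ⟨hs.1.le, hs.2⟩).le

/-- Last time at which a level is left. -/
theorem last_hit {f : ℝ → ℝ} {a b c : ℝ} (hab : a ≤ b) (hf : ContinuousOn f (Icc a b))
    (ha : f a ≤ c) (hb : c < f b) : ∃ t ∈ Ico a b, f t = c ∧ ∀ s ∈ Ioc t b, c < f s := by
  have hf' : ContinuousOn (fun t => -f (-t)) (Icc (-b) (-a)) := by
    refine (hf.comp continuous_neg.continuousOn ?_).neg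
    intro t ht
    exact ⟨by linarith [ht.2], by linarith [ht.1]⟩
  obtain ⟨t, ht, hft, hlt⟩ := first_hit (c := -c) (neg_le_neg hab) hf'
    (by rw [neg_neg]; exact neg_lt_neg hb) (by rw [neg_neg]; exact neg_le_neg ha)
  refine ⟨-t, ⟨by linarith [ht.2], by linarith [ht.1]⟩, by linarith, fun s hs => ?_⟩
  have := hlt (-s) ⟨by linarith [hs.2], by linarith [hs.1]⟩
  rw [neg_neg] at this
  linarith

/-- A function which increases at its zeros does not return. -/
theorem stay_nonneg {f f' : ℝ → ℝ} (hd : ∀ t, HasDerivAt f (f' t) t)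
    (h0 : ∀ t, f t = 0 → 0 < f' t) {τ : ℝ} (hτ : f τ = 0) : ∀ t, τ ≤ t → 0 ≤ f t := by
  intro t ht
  by_contra hneg
  push Not at hneg
  have hc : ContinuousOn (fun s => -f s) (Icc τ t) := fun s _ =>
    (hd s).neg.continuousAt.continuousWithinAt
  obtain ⟨s, hs, hfs, hlt⟩ := last_hit (c := 0) ht hc (by rw [hτ, neg_zero]) (by linarith)
  have hfs0 : f s = 0 := by linarith
  have h1 := h0 s hfs0
  have h2 := (hasDerivAt_iff_tendsto_slope.1 (hd s)).eventually (lt_mem_nhds h1)
  have h3 : ∀ᶠ x in 𝓝[>] s, 0 < slope f s x :=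
    h2.filter_mono (nhdsWithin_mono s fun x hx => ne_of_gt hx)
  have h4 : ∀ᶠ x in 𝓝[>] s, x ∈ Ioo s t := Ioo_mem_nhdsGT hs.2
  obtain ⟨x, hx1, hx2⟩ := (h3.and h4).exists
  have h5 := hlt x ⟨hx2.1, hx2.2.le⟩
  rw [slope_def_field, hfs0, sub_zero] at hx1
  have h6 : 0 < x - s := sub_pos.2 hx2.1
  have h7 : 0 < f x := by
    rcases div_pos_iff.1 hx1 with ⟨h, _⟩ | ⟨_, h⟩
    · exact h
    · linarith
  linarith

/-- modulus, angle, speed and curvature -/
structure Turn (A α ρ κ : ℝ → ℝ) (M : ℝ) : Prop where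
  cρ : Continuous ρ
  cκ : Continuous κ
  ρ0 : ∀ t, 0 < ρ t
  κ0 : ∀ t, 0 ≤ κ t
  A0 : ∀ t, 0 < A t
  AM : ∀ t, A t ≤ M
  dA : ∀ t, HasDerivAt A (-(A t * ρ t * Real.sin (α t))) t
  dα : ∀ t, HasDerivAt α (κ t + ρ t * Real.cos (α t)) t

namespace Turn

variable {A α ρ κ : ℝ → ℝ} {M : ℝ} (h : Turn A α ρ κ M)

include h

theorem cA : Continuous A := continuous_iff_continuousAt.2 fun t => (h.dA t).continuousAt

theorem cα : Continuous α := continuous_iff_continuousAt.2 fun t => (h.dα t).continuousAt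

theorem M0 : 0 < M := (h.A0 0).trans_le (h.AM 0)

/-- the reversed curve -/
theorem rev : Turn (fun t => A (-t)) (fun t => 2 * Real.pi - α (-t)) (fun t => ρ (-t))
    (fun t => κ (-t)) M where
  cρ := h.cρ.comp continuous_neg
  cκ := h.cκ.comp continuous_neg
  ρ0 t := h.ρ0 _
  κ0 t := h.κ0 _
  A0 t := h.A0 _
  AM t := h.AM _
  dA t := by
    have h1 := (h.dA (-t)).scomp t (hasDerivAt_neg t)
    refine h1.congr_deriv ?_
    rw [Real.sin_two_pi_sub, smul_eq_mul]
    ring
  dα t := by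
    have h1 := ((h.dα (-t)).scomp t (hasDerivAt_neg t)).const_sub (2 * Real.pi)
    refine h1.congr_deriv ?_
    rw [Real.cos_two_pi_sub, smul_eq_mul]
    ring

/-- the distance to the tangent -/
theorem dT (t : ℝ) : HasDerivAt (fun t => Real.cos (α t) / A t)
    (-(Real.sin (α t) * κ t / A t)) t := by
  have hA := (h.A0 t).ne'
  have h1 := ((h.dα t).cos).fun_div (h.dA t) hA
  refine h1.congr_deriv ?_
  field_simp
  ring

theorem anti {a b : ℝ} (hs : ∀ t ∈ Icc a b, 0 ≤ Real.sin (α t)) :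
    AntitoneOn (fun t => Real.cos (α t) / A t) (Icc a b) := by
  refine antitoneOn_of_deriv_nonpos (convex_Icc a b)
    (fun t _ => (h.dT t).continuousAt.continuousWithinAt)
    (fun t _ => (h.dT t).differentiableAt.differentiableWithinAt) ?_
  intro t ht
  rw [(h.dT t).deriv]
  have h1 := hs t (interior_subset ht)
  have h2 := h.κ0 t
  have h3 := h.A0 t
  have : 0 ≤ Real.sin (α t) * κ t / A t := by positivity
  linarith

theorem cInt : Continuous fun t => A t * ρ t := h.cA.mul h.cρ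

theorem cCos : Continuous fun t => ρ t * Real.cos (α t) := h.cρ.mul (Real.continuous_cos.comp h.cα)

end Turn

/-! ### three elementary inequalities -/

theorem mul_cos_le_sin {y : ℝ} (h0 : 0 ≤ y) (h1 : y ≤ Real.pi / 2) :
    y * Real.cos y ≤ Real.sin y := by
  rcases eq_or_lt_of_le h1 with h | h
  · rw [h, Real.cos_pi_div_two, mul_zero, Real.sin_pi_div_two]
    exact zero_le_one
  · have h2 := Real.le_tan h0 h
    have h3 : 0 < Real.cos y := Real.cos_pos_of_mem_Ioo ⟨by linarith [Real.pi_pos], h⟩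
    rw [Real.tan_eq_sin_div_cos, le_div_iff₀ h3] at h2
    exact h2

theorem sin_sub_le {x : ℝ} (h0 : 0 ≤ x) (h1 : x ≤ Real.pi / 2) :
    Real.sin x - x * Real.cos x ≤ Real.sin x ^ 2 := by
  have hs : 0 ≤ Real.sin x := Real.sin_nonneg_of_nonneg_of_le_pi h0 (by linarith [Real.pi_pos])
  have hc : 0 ≤ Real.cos x := Real.cos_nonneg_of_mem_Icc ⟨by linarith [Real.pi_pos], h1⟩
  have h2 := Real.sin_le h0
  have h3 : 1 ≤ Real.sin x + Real.cos x := by
    have := Real.sin_sq_add_cos_sq x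
    nlinarith [mul_nonneg hs hc]
  nlinarith [mul_le_mul_of_nonneg_right h2 hc]

end Pool.Agent.MobConv
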