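import Mathlib
import Pool.Agent.Lib.MP_4b1e7e_an.Up1

/-!
# The length of the inversion of a closed convex curve: the estimate
-/

set_option autoImplicit false

namespace Pool.Agent.MobConv

open Set Filter Topology MeasureTheory

namespace Turn

variable {A α ρ κ : ℝ → ℝ} {M : ℝ} (h : Turn A α ρ κ M)

include h

/-- the near side -/
theorem near {a b : ℝ} (hab : a < b) (ha : α a = 0)
    (hr : ∀ s ∈ Ico a b, 0 ≤ α s ∧ α s < Real.pi / 2) :
    ∫ t in a..b, A t * ρ t ≤ Real.pi / 2 * A a - A b := by
  have hπ := Real.pi_pos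
  set Φ : ℝ → ℝ := fun t => (∫ s in a..t, A s * ρ s) +
    A t * (Real.pi / 2 - α t) / Real.cos (α t) with hΦ
  have hcos : ∀ s ∈ Ico a b, 0 < Real.cos (α s) := fun s hs =>
    Real.cos_pos_of_mem_Ioo ⟨by linarith [(hr s hs).1], (hr s hs).2⟩
  have hd : ∀ t ∈ Ico a b, HasDerivAt Φ (-(κ t * A t * (Real.cos (α t) -
      (Real.pi / 2 - α t) * Real.sin (α t)) / Real.cos (α t) ^ 2)) t := by
    intro t ht
    have hc := (hcos t ht).ne'
    have h1 := (h.cInt.integral_hasStrictDerivAt a t).hasDerivAt
    have h2 := ((h.dA t).fun_mul ((h.dα t).const_sub (Real.pi / 2))).fun_div ((h.dα t).cos) hc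
    refine (h1.add h2).congr_deriv ?_
    field_simp
    ring
  have key : ∀ t ∈ Ioo a b, (∫ s in a..t, A s * ρ s) + A t ≤ Real.pi / 2 * A a := by
    intro t ht
    have hsub : ∀ s ∈ Icc a t, s ∈ Ico a b := fun s hs => ⟨hs.1, hs.2.trans_lt ht.2⟩
    have hanti : AntitoneOn Φ (Icc a t) := by
      refine antitoneOn_of_deriv_nonpos (convex_Icc a t)
        (fun s hs => (hd s (hsub s hs)).continuousAt.continuousWithinAt)
        (fun s hs =>
          (hd s (hsub s (interior_subset hs))).differentiableAt.differentiableWithinAt) ?_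
      intro s hs
      have hs' := hsub s (interior_subset hs)
      rw [(hd s hs').deriv]
      have h1 := hr s hs'
      have h2 := mul_cos_le_sin (y := Real.pi / 2 - α s) (by linarith) (by linarith)
      rw [Real.cos_pi_div_two_sub, Real.sin_pi_div_two_sub] at h2
      have h3 : 0 ≤ κ s * A s * (Real.cos (α s) - (Real.pi / 2 - α s) * Real.sin (α s)) /
          Real.cos (α s) ^ 2 :=
        div_nonneg (mul_nonneg (mul_nonneg (h.κ0 s) (h.A0 s).le) (by linarith)) (sq_nonneg _)
      linarith
    have h1 := hanti (left_mem_Icc.2 ht.1.le) (right_mem_Icc.2 ht.1.le) ht.1.le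
    simp only [hΦ] at h1
    rw [ha, Real.cos_zero, intervalIntegral.integral_same, zero_add, sub_zero, div_one] at h1
    have h2 : A t ≤ A t * (Real.pi / 2 - α t) / Real.cos (α t) := by
      have ht' := hsub t (right_mem_Icc.2 ht.1.le)
      have h3 := hr t ht'
      have h4 := Real.sin_le (x := Real.pi / 2 - α t) (by linarith)
      rw [Real.sin_pi_div_two_sub] at h4
      rw [le_div_iff₀ (hcos t ht')]
      exact mul_le_mul_of_nonneg_left h4 (h.A0 t).le
    linarith
  have hcont : Continuous fun t => (∫ s in a..t, A s * ρ s) + A t :=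
    (continuous_iff_continuousAt.2 fun t =>
      (h.cInt.integral_hasStrictDerivAt a t).hasDerivAt.continuousAt).add h.cA
  have hlim : Tendsto (fun t => (∫ s in a..t, A s * ρ s) + A t) (𝓝[<] b)
      (𝓝 ((∫ s in a..b, A s * ρ s) + A b)) := hcont.continuousAt.mono_left nhdsWithin_le_nhds
  have h5 := le_of_tendsto hlim (by
    filter_upwards [Ioo_mem_nhdsLT hab] with t ht
    exact key t ht)
  linarith

/-- the flat part -/
theorem flat {a b : ℝ} (hab : a ≤ b) (hr : ∀ s ∈ Icc a b, α s = Real.pi / 2) :
    (∫ t in a..b, A t * ρ t) + M * (∫ t in a..b, ρ t * Real.cos (α t)) = A a - A b := by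
  have h1 : ∫ t in a..b, ρ t * Real.cos (α t) = 0 := by
    rw [intervalIntegral.integral_congr (g := fun _ => (0 : ℝ))]
    · simp
    · intro t ht
      rw [uIcc_of_le hab] at ht
      simp only [hr t ht, Real.cos_pi_div_two, mul_zero]
  have h2 : ∫ t in a..b, A t * ρ t = ∫ t in a..b, (A t * ρ t * Real.sin (α t)) := by
    refine intervalIntegral.integral_congr fun t ht => ?_
    rw [uIcc_of_le hab] at ht
    simp only [hr t ht, Real.sin_pi_div_two, mul_one]
  have h3 : ∫ t in a..b, -(A t * ρ t * Real.sin (α t)) = A b - A a :=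
    intervalIntegral.integral_eq_sub_of_hasDerivAt (fun t _ => h.dA t)
      ((h.cInt.mul (Real.continuous_sin.comp h.cα)).neg.intervalIntegrable _ _)
  rw [intervalIntegral.integral_neg] at h3
  rw [h1, h2]
  linarith

/-- the first part of the far side -/
theorem far {a b : ℝ} (hab : a < b) (ha : α a = Real.pi / 2)
    (hr : ∀ s ∈ Ioo a b, Real.pi / 2 < α s ∧ α s < Real.pi)
    (hg : ∀ s ∈ Ico a b, 0 < A s + M * Real.cos (α s)) :
    (∫ t in a..b, A t * ρ t) + M * (∫ t in a..b, ρ t * Real.cos (α t)) ≤ A a := by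
  have hπ := Real.pi_pos
  have hM := h.M0
  set F : ℝ → ℝ := fun t => A t * ρ t + M * (ρ t * Real.cos (α t)) with hF
  have hFc : Continuous F := h.cInt.add (continuous_const.mul h.cCos)
  have hsum : ∀ u v : ℝ, ∫ t in u..v, F t =
      (∫ t in u..v, A t * ρ t) + M * (∫ t in u..v, ρ t * Real.cos (α t)) := by
    intro u v
    have i1 : Continuous fun t => M * (ρ t * Real.cos (α t)) := continuous_const.mul h.cCos
    simp only [hF]
    rw [intervalIntegral.integral_add (h.cInt.intervalIntegrable _ _)
      (i1.intervalIntegrable _ _), intervalIntegral.integral_const_mul]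
  have hcos : ∀ s ∈ Ioo a b, Real.cos (α s) < 0 := fun s hs =>
    Real.cos_neg_of_pi_div_two_lt_of_lt (hr s hs).1 (by linarith [(hr s hs).2])
  have hsin : ∀ s ∈ Ioo a b, 0 < Real.sin (α s) := fun s hs =>
    Real.sin_pos_of_pos_of_lt_pi (by linarith [(hr s hs).1]) (hr s hs).2
  set H : ℝ → ℝ := fun t => (α t - Real.pi / 2) * (A t + M * Real.cos (α t)) /
    (-Real.cos (α t)) with hH
  -- the potential
  have key : ∀ s ∈ Ioo a b, ∀ t ∈ Ioo a b, s ≤ t → ∫ x in s..t, F x ≤
      (A s + M * Real.cos (α s)) / Real.sin (α s) := by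
    intro s hs t ht hst
    have hsub : ∀ x ∈ Icc s t, x ∈ Ioo a b := fun x hx =>
      ⟨hs.1.trans_le hx.1, hx.2.trans_lt ht.2⟩
    have hd : ∀ x ∈ Icc s t, HasDerivAt (fun x => (∫ y in s..x, F y) + H x)
        (-(κ x * ((A x + M * Real.cos (α x)) * Real.cos (α x) +
          (α x - Real.pi / 2) * A x * Real.sin (α x)) / Real.cos (α x) ^ 2)) x := by
      intro x hx
      have hc := (hcos x (hsub x hx)).ne
      have h1 := (hFc.integral_hasStrictDerivAt s x).hasDerivAt
      have h2 := (((h.dα x).sub_const (Real.pi / 2)).fun_mul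
        ((h.dA x).fun_add (((h.dα x).cos).const_mul M))).fun_div ((h.dα x).cos.fun_neg)
        (neg_ne_zero.2 hc)
      refine (h1.add h2).congr_deriv ?_
      simp only [hF]
      field_simp
      ring
    have hanti : AntitoneOn (fun x => (∫ y in s..x, F y) + H x) (Icc s t) := by
      refine antitoneOn_of_deriv_nonpos (convex_Icc s t)
        (fun x hx => (hd x hx).continuousAt.continuousWithinAt)
        (fun x hx => (hd x (interior_subset hx)).differentiableAt.differentiableWithinAt) ?_
      intro x hx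
      have hx' := interior_subset hx
      rw [(hd x hx').deriv]
      have h1 := hr x (hsub x hx')
      have h2 := sin_sub_le (x := α x - Real.pi / 2) (by linarith) (by linarith)
      have e1 : Real.sin (α x - Real.pi / 2) = -Real.cos (α x) := by
        rw [← Real.cos_pi_div_two_sub, show Real.pi / 2 - (α x - Real.pi / 2) =
          Real.pi - α x by ring, Real.cos_pi_sub]
      have e2 : Real.cos (α x - Real.pi / 2) = Real.sin (α x) := Real.cos_sub_pi_div_two _
      rw [e1, e2] at h2
      have h3 : 0 ≤ (A x + M * Real.cos (α x)) * Real.cos (α x) +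
          (α x - Real.pi / 2) * A x * Real.sin (α x) := by
        have h4 := mul_le_mul_of_nonneg_left h2 (h.A0 x).le
        have h5 := mul_le_mul_of_nonneg_right (h.AM x) (sq_nonneg (Real.cos (α x)))
        nlinarith
      have h6 : 0 ≤ κ x * ((A x + M * Real.cos (α x)) * Real.cos (α x) +
          (α x - Real.pi / 2) * A x * Real.sin (α x)) / Real.cos (α x) ^ 2 :=
        div_nonneg (mul_nonneg (h.κ0 x) h3) (sq_nonneg _)
      linarith
    have h1 := hanti (left_mem_Icc.2 hst) (right_mem_Icc.2 hst) hst
    simp only at h1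
    rw [intervalIntegral.integral_same, zero_add] at h1
    have h2 : 0 ≤ H t := by
      have h3 := hr t ht
      have h4 := hg t ⟨ht.1.le, ht.2⟩
      have h5 := hcos t ht
      exact div_nonneg (mul_nonneg (by linarith) h4.le) (by linarith)
    have h3 : H s ≤ (A s + M * Real.cos (α s)) / Real.sin (α s) := by
      have h4 := hr s hs
      have h5 := hg s ⟨hs.1.le, hs.2⟩
      have h6 := hcos s hs
      have h7 := hsin s hs
      have h8 := mul_cos_le_sin (y := α s - Real.pi / 2) (by linarith) (by linarith)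
      have e1 : Real.sin (α s - Real.pi / 2) = -Real.cos (α s) := by
        rw [← Real.cos_pi_div_two_sub, show Real.pi / 2 - (α s - Real.pi / 2) =
          Real.pi - α s by ring, Real.cos_pi_sub]
      rw [e1, Real.cos_sub_pi_div_two] at h8
      rw [hH]
      simp only
      rw [div_le_div_iff₀ (by linarith) h7]
      have := mul_le_mul_of_nonneg_left h8 h5.le
      nlinarith
    linarith
  have hcont : ∀ s, Continuous fun t => ∫ x in s..t, F x := fun s =>
    continuous_iff_continuousAt.2
      fun t => (hFc.integral_hasStrictDerivAt s t).hasDerivAt.continuousAt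
  have key2 : ∀ s ∈ Ioo a b, ∫ x in s..b, F x ≤ (A s + M * Real.cos (α s)) / Real.sin (α s) := by
    intro s hs
    have hlim : Tendsto (fun t => ∫ x in s..t, F x) (𝓝[<] b) (𝓝 (∫ x in s..b, F x)) :=
      (hcont s).continuousAt.mono_left nhdsWithin_le_nhds
    refine le_of_tendsto hlim ?_
    filter_upwards [Ioo_mem_nhdsLT hs.2] with t ht
    exact key s hs t ⟨hs.1.trans ht.1, ht.2⟩ ht.1.le
  rw [← hsum]
  have hl1 : Tendsto (fun s => ∫ x in s..b, F x) (𝓝[>] a) (𝓝 (∫ x in a..b, F x)) := by
    have h1 : (fun s => ∫ x in s..b, F x) = fun s => -∫ x in b..s, F x := by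
      funext s
      rw [intervalIntegral.integral_symm]
    rw [h1, intervalIntegral.integral_symm]
    exact ((hcont b).neg).continuousAt.mono_left nhdsWithin_le_nhds
  have hl2 : Tendsto (fun s => (A s + M * Real.cos (α s)) / Real.sin (α s)) (𝓝[>] a)
      (𝓝 (A a)) := by
    have h1 : ContinuousAt (fun s => (A s + M * Real.cos (α s)) / Real.sin (α s)) a := by
      refine ContinuousAt.div ?_ ?_ ?_
      · exact (h.cA.add (continuous_const.mul (Real.continuous_cos.comp h.cα))).continuousAt
      · exact (Real.continuous_sin.comp h.cα).continuousAt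
      · rw [ha, Real.sin_pi_div_two]
        exact one_ne_zero
    have h2 : (A a + M * Real.cos (α a)) / Real.sin (α a) = A a := by
      rw [ha, Real.cos_pi_div_two, Real.sin_pi_div_two, mul_zero, add_zero, div_one]
    have h3 := h1.tendsto
    rw [h2] at h3
    exact h3.mono_left nhdsWithin_le_nhds
  refine le_of_tendsto_of_tendsto hl1 hl2 ?_
  filter_upwards [Ioo_mem_nhdsGT hab] with s hs
  exact key2 s hs

end Turn

end Pool.Agent.MobConv
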