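import Mathlib
import Pool.Agent.Lib.MP_4b1e7e_an.Up2

/-!
# The length of the inversion of a closed convex curve: the result
-/

set_option autoImplicit false

namespace Pool.Agent.MobConv

open Set Filter Topology MeasureTheory

/-- length plus a multiple of the change of the polar angle -/
noncomputable def JJ (A α ρ : ℝ → ℝ) (M u v : ℝ) : ℝ :=
  (∫ t in u..v, A t * ρ t) + M * (∫ t in u..v, ρ t * Real.cos (α t))

namespace Turn

variable {A α ρ κ : ℝ → ℝ} {M : ℝ} (h : Turn A α ρ κ M)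

include h

theorem JJ_add (u v w : ℝ) : JJ A α ρ M u v + JJ A α ρ M v w = JJ A α ρ M u w := by
  unfold JJ
  rw [← intervalIntegral.integral_add_adjacent_intervals (h.cInt.intervalIntegrable u v)
    (h.cInt.intervalIntegrable v w), ← intervalIntegral.integral_add_adjacent_intervals
    (h.cCos.intervalIntegrable u v) (h.cCos.intervalIntegrable v w)]
  ring

theorem JJ_eq (u v : ℝ) :
    JJ A α ρ M u v = ∫ t in u..v, ρ t * (A t + M * Real.cos (α t)) := by
  have i1 : Continuous fun t => M * (ρ t * Real.cos (α t)) := continuous_const.mul h.cCos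
  unfold JJ
  rw [← intervalIntegral.integral_const_mul, ← intervalIntegral.integral_add
    (h.cInt.intervalIntegrable _ _) (i1.intervalIntegrable _ _)]
  exact intervalIntegral.integral_congr fun t _ => by ring

theorem JJ_nonpos {u v : ℝ} (huv : u ≤ v) (hg : ∀ t ∈ Icc u v, A t + M * Real.cos (α t) ≤ 0) :
    JJ A α ρ M u v ≤ 0 := by
  rw [h.JJ_eq]
  have h1 : ∫ t in u..v, ρ t * (A t + M * Real.cos (α t)) ≤ ∫ t in u..v, (0 : ℝ) := by
    refine intervalIntegral.integral_mono_on huv ?_ (continuous_const.intervalIntegrable _ _)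
      fun t ht => ?_
    · exact (h.cρ.mul (h.cA.add (continuous_const.mul
        (Real.continuous_cos.comp h.cα)))).intervalIntegrable _ _
    · exact mul_nonpos_of_nonneg_of_nonpos (h.ρ0 t).le (hg t ht)
  simpa using h1

theorem half {a b : ℝ} (hab : a ≤ b) (ha : α a = 0) (hb : α b = Real.pi)
    (hr : ∀ s ∈ Icc a b, 0 ≤ α s ∧ α s ≤ Real.pi) :
    JJ A α ρ M a b ≤ Real.pi / 2 * A a + Real.pi / 2 * M := by
  have hπ := Real.pi_pos
  have hM := h.M0
  have hc : ∀ u v : ℝ, ContinuousOn α (Icc u v) := fun u v => h.cα.continuousOn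
  obtain ⟨t1, ht1, e1, l1⟩ := first_hit (c := Real.pi / 2) hab (hc _ _) (by rw [ha]; linarith)
    (by rw [hb]; linarith)
  obtain ⟨t2, ht2, e2, l2⟩ := last_hit (c := Real.pi / 2) ht1.2 (hc _ _) e1.le
    (by rw [hb]; linarith)
  have hgc : ContinuousOn (fun t => -(A t + M * Real.cos (α t))) (Icc t2 b) :=
    (h.cA.add (continuous_const.mul (Real.continuous_cos.comp h.cα))).neg.continuousOn
  obtain ⟨t3, ht3, e3, l3⟩ := first_hit (c := 0) ht2.2.le hgc
    (by
      rw [e2, Real.cos_pi_div_two, mul_zero, add_zero]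
      linarith [h.A0 t2])
    (by
      rw [hb, Real.cos_pi]
      linarith [h.AM b])
  have hT := h.anti (a := a) (b := b)
    fun t ht => Real.sin_nonneg_of_nonneg_of_le_pi (hr t ht).1 (hr t ht).2
  have m1 : t1 ∈ Icc a b := ⟨ht1.1.le, ht1.2⟩
  have m2 : t2 ∈ Icc a b := ⟨ht1.1.le.trans ht2.1, ht2.2.le⟩
  have m3 : t3 ∈ Icc a b := ⟨m2.1.trans ht3.1.le, ht3.2⟩
  -- near side
  have h1 := h.near ht1.1 ha fun s hs => ⟨(hr s ⟨hs.1, hs.2.le.trans ht1.2⟩).1, l1 s hs⟩
  have h2 : ∫ t in a..t1, ρ t * Real.cos (α t) ≤ Real.pi / 2 := by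
    have h3 : ∫ t in a..t1, (κ t + ρ t * Real.cos (α t)) = α t1 - α a :=
      intervalIntegral.integral_eq_sub_of_hasDerivAt (fun t _ => h.dα t)
        ((h.cκ.add h.cCos).intervalIntegrable _ _)
    rw [intervalIntegral.integral_add (h.cκ.intervalIntegrable _ _)
      (h.cCos.intervalIntegrable _ _), e1, ha, sub_zero] at h3
    have h4 : 0 ≤ ∫ t in a..t1, κ t :=
      intervalIntegral.integral_nonneg ht1.1.le fun t _ => h.κ0 t
    linarith
  have h3 : JJ A α ρ M a t1 ≤ Real.pi / 2 * A a - A t1 + Real.pi / 2 * M := by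
    unfold JJ
    have := mul_le_mul_of_nonneg_left h2 hM.le
    linarith
  -- flat part
  have h4 : JJ A α ρ M t1 t2 = A t1 - A t2 := by
    refine h.flat ht2.1 fun s hs => ?_
    have ms : s ∈ Icc a b := ⟨m1.1.trans hs.1, hs.2.trans m2.2⟩
    have a1 := hT m1 ms hs.1
    have a2 := hT ms m2 hs.2
    simp only [e1, e2, Real.cos_pi_div_two, zero_div] at a1 a2
    have a3 : Real.cos (α s) / A s = 0 := le_antisymm a1 a2
    have a4 : Real.cos (α s) = 0 := by
      rcases div_eq_zero_iff.1 a3 with h5 | h5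
      · exact h5
      · exact absurd h5 (h.A0 s).ne'
    exact Real.injOn_cos ⟨(hr s ms).1, (hr s ms).2⟩ ⟨by linarith, by linarith⟩
      (by rw [a4, Real.cos_pi_div_two])
  -- far side
  have h5 : JJ A α ρ M t2 t3 ≤ A t2 := by
    refine h.far ht3.1 e2 (fun s hs => ⟨l2 s ⟨hs.1, hs.2.le.trans ht3.2⟩, ?_⟩) fun s hs => ?_
    · have ms : s ∈ Icc a b := ⟨m2.1.trans hs.1.le, hs.2.le.trans m3.2⟩
      refine lt_of_le_of_ne (hr s ms).2 fun he => ?_
      have := l3 s ⟨hs.1.le, hs.2⟩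
      rw [he, Real.cos_pi] at this
      linarith [h.AM s]
    · linarith [l3 s hs]
  have h6 : JJ A α ρ M t3 b ≤ 0 := by
    refine h.JJ_nonpos ht3.2 fun s hs => ?_
    have ms : s ∈ Icc a b := ⟨m3.1.trans hs.1, hs.2⟩
    have a1 := hT m3 ms hs.1
    simp only at a1
    have a2 : Real.cos (α t3) / A t3 = -(1 / M) := by
      have h7 := h.A0 t3
      rw [div_eq_iff h7.ne']
      field_simp
      linarith
    rw [a2, div_le_iff₀ (h.A0 s)] at a1
    have a3 := mul_le_mul_of_nonneg_left a1 hM.le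
    have a4 : M * (-(1 / M) * A s) = -A s := by field_simp
    linarith
  have s1 := h.JJ_add a t1 t2
  have s2 := h.JJ_add a t2 t3
  have s3 := h.JJ_add a t3 b
  linarith

theorem le_of_T {s t : ℝ} (hs : α s = Real.pi)
    (hT : Real.cos (α t) / A t ≤ Real.cos (α s) / A s) : A t + M * Real.cos (α t) ≤ 0 := by
  have hM := h.M0
  have h1 := h.A0 s
  have h2 := h.A0 t
  rw [hs, Real.cos_pi] at hT
  have h3 : (-1 : ℝ) / A s ≤ -(1 / M) := by
    rw [neg_div, neg_le_neg_iff]
    exact one_div_le_one_div_of_le h1 (h.AM s)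
  have h4 := hT.trans h3
  rw [div_le_iff₀ h2] at h4
  have a3 := mul_le_mul_of_nonneg_left h4 hM.le
  have a4 : M * (-(1 / M) * A t) = -A t := by field_simp
  linarith

theorem middle {a b : ℝ} (hab : a ≤ b) (ha : α a = Real.pi) (hb : α b = Real.pi)
    (hr : ∀ s ∈ Icc a b, 0 ≤ α s ∧ α s ≤ 2 * Real.pi) : JJ A α ρ M a b ≤ 0 := by
  have hπ := Real.pi_pos
  refine h.JJ_nonpos hab fun t ht => ?_
  rcases lt_trichotomy (α t) Real.pi with h1 | h1 | h1
  · obtain ⟨s, hs, e, l⟩ := last_hit (f := fun t => -α t) (c := -Real.pi) ht.1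
      h.cα.neg.continuousOn (by rw [ha]) (neg_lt_neg h1)
    have e' : α s = Real.pi := by linarith
    have hT := h.anti (a := s) (b := t) (fun x hx => by
      rcases eq_or_lt_of_le hx.1 with h2 | h2
      · rw [← h2, e', Real.sin_pi]
      · have h3 := l x ⟨h2, hx.2⟩
        exact Real.sin_nonneg_of_nonneg_of_le_pi (hr x ⟨hs.1.trans hx.1, hx.2.trans ht.2⟩).1
          (by linarith))
    exact h.le_of_T e' (hT (left_mem_Icc.2 hs.2.le) (right_mem_Icc.2 hs.2.le) hs.2.le)
  · rw [h1, Real.cos_pi]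
    linarith [h.AM t]
  · obtain ⟨s, hs, e, l⟩ := first_hit (f := fun t => -α t) (c := -Real.pi) ht.2
      h.cα.neg.continuousOn (neg_lt_neg h1) (by rw [hb])
    have e' : α s = Real.pi := by linarith
    have hT := h.rev.anti (a := -s) (b := -t) (fun x hx => by
      have hx1 : t ≤ -x := by linarith [hx.2]
      have hx2 : -x ≤ s := by linarith [hx.1]
      have h4 := hr (-x) ⟨ht.1.trans hx1, hx2.trans hs.2⟩
      refine Real.sin_nonneg_of_nonneg_of_le_pi (by linarith) ?_
      rcases eq_or_lt_of_le hx2 with h2 | h2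
      · rw [h2, e']
        linarith
      · have h3 := l (-x) ⟨hx1, h2⟩
        linarith)
    have h5 := hT (left_mem_Icc.2 (neg_le_neg hs.1.le)) (right_mem_Icc.2 (neg_le_neg hs.1.le))
      (neg_le_neg hs.1.le)
    simp only [neg_neg, Real.cos_two_pi_sub] at h5
    exact h.le_of_T e' h5

/-- **The length of the inverted curve.** -/
theorem length {τ p : ℝ} (hp : 0 < p) (h0 : α τ = 0) (h1 : α (τ + p) = 2 * Real.pi)
    (hc : ∫ t in τ..τ + p, ρ t * Real.cos (α t) = 0) :
    ∫ t in τ..τ + p, A t * ρ t ≤ 2 * Real.pi * M := by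
  have hπ := Real.pi_pos
  have hM := h.M0
  have hlow : ∀ t, τ ≤ t → 0 ≤ α t := stay_nonneg h.dα (fun t ht => by
    rw [ht, Real.cos_zero]
    linarith [h.κ0 t, h.ρ0 t]) h0
  have hup : ∀ t, t ≤ τ + p → α t ≤ 2 * Real.pi := by
    intro t ht
    have h2 := stay_nonneg (τ := -(τ + p)) h.rev.dα (fun t ht => by
      rw [ht, Real.cos_zero]
      linarith [h.κ0 (-t), h.ρ0 (-t)]) (by rw [neg_neg, h1, sub_self]) (-t) (neg_le_neg ht)
    rw [neg_neg] at h2
    linarith
  obtain ⟨b, hb, eb, lb⟩ := first_hit (f := α) (a := τ) (b := τ + p) (c := Real.pi)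
    (by linarith) h.cα.continuousOn (by rw [h0]; exact hπ) (by rw [h1]; linarith)
  obtain ⟨b', hb', eb', lb'⟩ := last_hit (c := Real.pi) hb.2 h.cα.continuousOn eb.le
    (by rw [h1]; linarith)
  have p1 := h.half hb.1.le h0 eb (fun s hs => ⟨hlow s hs.1, by
    rcases eq_or_lt_of_le hs.2 with h2 | h2
    · rw [h2, eb]
    · exact (lb s ⟨hs.1, h2⟩).le⟩)
  have p2 := h.middle hb'.1 eb eb' (fun s hs => ⟨hlow s (hb.1.le.trans hs.1),
    hup s (hs.2.trans hb'.2.le)⟩)
  have p3 := h.rev.half (a := -(τ + p)) (b := -b') (neg_le_neg hb'.2.le)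
    (by rw [neg_neg, h1, sub_self]) (by rw [neg_neg, eb']; ring) (fun s hs => by
      have hs1 : b' ≤ -s := by linarith [hs.2]
      have hs2 : -s ≤ τ + p := by linarith [hs.1]
      refine ⟨by linarith [hup (-s) hs2], ?_⟩
      rcases eq_or_lt_of_le hs1 with h2 | h2
      · rw [← h2, eb']
        linarith
      · have := lb' (-s) ⟨h2, hs2⟩
        linarith)
  have p4 : JJ (fun t => A (-t)) (fun t => 2 * Real.pi - α (-t)) (fun t => ρ (-t)) M
      (-(τ + p)) (-b') = JJ A α ρ M b' (τ + p) := by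
    unfold JJ
    simp only [Real.cos_two_pi_sub]
    rw [intervalIntegral.integral_comp_neg (fun t => A t * ρ t),
      intervalIntegral.integral_comp_neg (fun t => ρ t * Real.cos (α t)), neg_neg, neg_neg]
  rw [p4, neg_neg] at p3
  have s1 := h.JJ_add τ b b'
  have s2 := h.JJ_add τ b' (τ + p)
  have s3 : JJ A α ρ M τ (τ + p) = ∫ t in τ..τ + p, A t * ρ t := by
    unfold JJ
    rw [hc, mul_zero, add_zero]
  have q1 := h.AM τ
  have q2 := h.AM (τ + p)
  nlinarith

end Turn

end Pool.Agent.MobConv
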