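import Mathlib
import Pool.Agent.Lib.MP_4b1e7e_an.Up3
import Pool.Agent.Lib.MP_4b1e7e_an.Asy.Upper

/-!
# The length of the image of a circle under `1 / (w - f)`, `f` convex
-/

set_option autoImplicit false

namespace Pool.Agent.MobConv

open Metric Filter Topology Set MeasureTheory

variable {f : ℂ → ℂ}

theorem IsConvexMap.sub_ne {w : ℂ} (hw : w ∉ f '' ball 0 1) {z : ℂ}
    (hz : z ∈ ball (0 : ℂ) 1) : w - f z ≠ 0 := fun h => hw ⟨z, hz, (sub_eq_zero.1 h).symm⟩

/-- `z f' / (w - f)` -/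
noncomputable def QQ (f : ℂ → ℂ) (w z : ℂ) : ℂ := z * deriv f z / (w - f z)

/-- the logarithmic derivative of `QQ`, times `z` -/
noncomputable def GG (f : ℂ → ℂ) (w z : ℂ) : ℂ :=
  1 + z * deriv (deriv f) z / deriv f z + QQ f w z

theorem IsConvexMap.hasDerivAt_QQ (hf : IsConvexMap f) {w : ℂ} (hw : w ∉ f '' ball 0 1) {z : ℂ}
    (hz : z ∈ ball (0 : ℂ) 1) : ∃ q, HasDerivAt (QQ f w) q z ∧ q * z = QQ f w z * GG f w z := by
  have h1 : HasDerivAt f (deriv f z) z := (hf.analyticAt hz).differentiableAt.hasDerivAt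
  have h2 : HasDerivAt (deriv f) (deriv (deriv f) z) z :=
    (hf.analyticAt hz).deriv.differentiableAt.hasDerivAt
  have h3 := IsConvexMap.sub_ne hw hz
  have h4 := hf.deriv_ne hz
  have h5 := ((hasDerivAt_id z).fun_mul h2).fun_div (h1.const_sub w) h3
  refine ⟨_, h5, ?_⟩
  simp only [QQ, GG, id]
  field_simp
  ring

theorem IsConvexMap.diff_QQ (hf : IsConvexMap f) {w : ℂ} (hw : w ∉ f '' ball 0 1) :
    DifferentiableOn ℂ (QQ f w) (ball 0 1) := by
  intro z hz
  obtain ⟨q, hq, -⟩ := hf.hasDerivAt_QQ hw hz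
  exact hq.differentiableAt.differentiableWithinAt

theorem IsConvexMap.diff_GG (hf : IsConvexMap f) {w : ℂ} (hw : w ∉ f '' ball 0 1) :
    DifferentiableOn ℂ (GG f w) (ball 0 1) := hf.diff_Q.add (hf.diff_QQ hw)

/-- derivative of the norm -/
theorem hasDerivAt_norm_aux {U : ℝ → ℂ} {U' : ℂ} {t : ℝ} (hU : HasDerivAt U U' t)
    (hne : U t ≠ 0) : HasDerivAt (fun x => ‖U x‖) ((U' / U t).re * ‖U t‖) t := by
  have h2 := hU.norm_sq
  have hpos : 0 < ‖U t‖ := norm_pos_iff.2 hne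
  have h3 := h2.sqrt (pow_pos hpos 2).ne'
  have h4 : (fun x => Real.sqrt (‖U x‖ ^ 2)) = fun x => ‖U x‖ := by
    ext x
    exact Real.sqrt_sq (norm_nonneg _)
  rw [h4, Real.sqrt_sq hpos.le] at h3
  refine h3.congr_deriv ?_
  rw [Complex.div_re, Complex.inner, Complex.normSq_eq_norm_sq]
  simp only [Complex.mul_re, Complex.conj_re, Complex.conj_im]
  field_simp
  ring

theorem re_integral {F : ℝ → ℂ} (hF : Continuous F) (a b : ℝ) :
    (∫ t in a..b, F t).re = ∫ t in a..b, (F t).re := by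
  have := Complex.reCLM.intervalIntegral_comp_comm (hF.intervalIntegrable a b (μ := volume))
  simpa using this.symm

theorem IsConvexMap.exists_turn (hf : IsConvexMap f) {w : ℂ} (hw : w ∉ f '' ball 0 1) {r M : ℝ}
    (h0 : 0 < r) (h1 : r < 1) (hM : ∀ θ, 1 / ‖w - f (circleMap 0 r θ)‖ ≤ M) :
    ∃ A α ρ κ : ℝ → ℝ, Turn A α ρ κ M ∧ (∀ θ, A θ = 1 / ‖w - f (circleMap 0 r θ)‖) ∧
      (∀ θ, ρ θ = ‖QQ f w (circleMap 0 r θ)‖) ∧
      (∀ θ, ρ θ * Real.cos (α θ) = (QQ f w (circleMap 0 r θ)).re) ∧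
      ∃ τ, α τ = 0 ∧ α (τ + 2 * Real.pi) = 2 * Real.pi := by
  have hπ := Real.pi_pos
  set c : ℝ → ℂ := circleMap 0 r with hc
  have hcb : ∀ θ, c θ ∈ ball (0 : ℂ) 1 := circleMap_mem_ball' h0 h1
  have hc0 : ∀ θ, c θ ≠ 0 := fun θ => circleMap_ne_center h0.ne'
  have hcd : ∀ θ, HasDerivAt c (c θ * Complex.I) θ := fun θ => hasDerivAt_circleMap 0 r θ
  set Q : ℝ → ℂ := fun θ => QQ f w (c θ) with hQ
  set G : ℝ → ℂ := fun θ => GG f w (c θ) with hG
  have hQ0 : ∀ θ, Q θ ≠ 0 := fun θ =>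
    div_ne_zero (mul_ne_zero (hc0 θ) (hf.deriv_ne (hcb θ))) (IsConvexMap.sub_ne hw (hcb θ))
  have hQc : Continuous Q := continuous_circle (hf.diff_QQ hw) h0 h1
  have hGc : Continuous G := continuous_circle (hf.diff_GG hw) h0 h1
  have hκc : Continuous (uu f r) := uu_cont hf h0 h1
  have hQd : ∀ θ, HasDerivAt Q (Complex.I * Q θ * G θ) θ := by
    intro θ
    obtain ⟨q, hq, hqz⟩ := hf.hasDerivAt_QQ hw (hcb θ)
    have h2 : HasDerivAt Q (q * (c θ * Complex.I)) θ := HasDerivAt.comp θ hq (hcd θ)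
    refine h2.congr_deriv ?_
    rw [← mul_assoc, hqz]
    ring
  set E : ℝ → ℂ := fun θ => ∫ t in (0 : ℝ)..θ, G t with hE
  have hEd : ∀ θ, HasDerivAt E (G θ) θ := fun θ =>
    (hGc.integral_hasStrictDerivAt 0 θ).hasDerivAt
  have hQE : ∀ θ, Q θ = Q 0 * Complex.exp (Complex.I * E θ) := by
    intro θ
    have hd : ∀ t, HasDerivAt (fun t => Q t * Complex.exp (-(Complex.I * E t))) 0 t := by
      intro t
      have e1 : HasDerivAt (fun t => -(Complex.I * E t)) (-(Complex.I * G t)) t :=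
        ((hEd t).const_mul Complex.I).neg
      have e2 := (hQd t).fun_mul e1.cexp
      refine e2.congr_deriv ?_
      ring
    have e3 := is_const_of_deriv_eq_zero (fun t => (hd t).differentiableAt)
      (fun t => (hd t).deriv) θ 0
    have e4 : E 0 = 0 := by simp [hE]
    simp only [e4, mul_zero, neg_zero, Complex.exp_zero, mul_one] at e3
    rw [← e3, mul_assoc, ← Complex.exp_add, neg_add_cancel, Complex.exp_zero, mul_one]
  -- the initial angle
  obtain ⟨a0, ha1, ha2, ha3⟩ : ∃ a0 : ℝ, -(2 * Real.pi) ≤ a0 ∧ a0 ≤ 0 ∧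
      Q 0 = ‖Q 0‖ * Complex.exp (a0 * Complex.I) := by
    have e1 := Complex.norm_mul_exp_arg_mul_I (Q 0)
    have e2 := Complex.neg_pi_lt_arg (Q 0)
    have e3 := Complex.arg_le_pi (Q 0)
    by_cases e4 : Complex.arg (Q 0) ≤ 0
    · exact ⟨_, by linarith, e4, e1.symm⟩
    · push Not at e4
      refine ⟨Complex.arg (Q 0) - 2 * Real.pi, by linarith, by linarith, ?_⟩
      have e5 : (((Complex.arg (Q 0) - 2 * Real.pi : ℝ) : ℂ)) * Complex.I =
          (Complex.arg (Q 0) : ℂ) * Complex.I - 2 * Real.pi * Complex.I := by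
        push_cast
        ring
      rw [e5, Complex.exp_sub, Complex.exp_two_pi_mul_I, div_one]
      exact e1.symm
  set α : ℝ → ℝ := fun θ => a0 + (E θ).re with hα
  have hαd : ∀ θ, HasDerivAt α (G θ).re θ := by
    intro θ
    have e1 := Complex.reCLM.hasFDerivAt.comp_hasDerivAt θ (hEd θ)
    exact e1.const_add a0
  have hpol : ∀ θ, Q θ = (‖Q θ‖ : ℂ) * Complex.exp (α θ * Complex.I) := by
    intro θ
    have e1 : Complex.I * E θ = ((-(E θ).im : ℝ) : ℂ) + ((E θ).re : ℂ) * Complex.I := by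
      conv_lhs => rw [← Complex.re_add_im (E θ)]
      push_cast
      linear_combination ((E θ).im : ℂ) * Complex.I_mul_I
    have e2 : ‖Q θ‖ = ‖Q 0‖ * Real.exp (-(E θ).im) := by
      rw [hQE θ, norm_mul, e1, Complex.exp_add, norm_mul, Complex.norm_exp_ofReal_mul_I,
        ← Complex.ofReal_exp, Complex.norm_real, Real.norm_of_nonneg (Real.exp_pos _).le, mul_one]
    rw [e2]
    conv_lhs => rw [hQE θ, ha3, e1]
    simp only [hα]
    push_cast
    rw [add_mul, Complex.exp_add, Complex.exp_add]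
    ring
  have hre : ∀ θ, ‖Q θ‖ * Real.cos (α θ) = (Q θ).re := by
    intro θ
    conv_rhs => rw [hpol θ]
    rw [Complex.re_ofReal_mul, Complex.exp_ofReal_mul_I_re]
  have him : ∀ θ, ‖Q θ‖ * Real.sin (α θ) = (Q θ).im := by
    intro θ
    conv_rhs => rw [hpol θ]
    rw [Complex.im_ofReal_mul, Complex.exp_ofReal_mul_I_im]
  have hper : Function.Periodic G (2 * Real.pi) := by
    intro θ
    simp only [hG, hc]
    rw [periodic_circleMap 0 r θ]
  have hG2 : (∫ t in (0 : ℝ)..2 * Real.pi, G t).re = 2 * Real.pi := by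
    rw [re_integral hGc]
    have e1 := integral_re_zero (hf.diff_GG hw) h0 h1
    rw [← hc] at e1
    simp only [hG]
    rw [e1]
    simp [GG, QQ]
  refine ⟨fun θ => 1 / ‖w - f (c θ)‖, α, fun θ => ‖Q θ‖, uu f r, ?_, fun _ => rfl, fun _ => rfl,
    hre, ?_⟩
  · refine ⟨hQc.norm, hκc, fun θ => norm_pos_iff.2 (hQ0 θ), fun θ => uu_nonneg hf h0 h1 θ,
      fun θ => one_div_pos.2 (norm_pos_iff.2 (IsConvexMap.sub_ne hw (hcb θ))), hM, ?_, ?_⟩
    · intro θ
      have hne := IsConvexMap.sub_ne hw (hcb θ)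
      have e1 : HasDerivAt (fun θ => w - f (c θ)) (-(deriv f (c θ) * (c θ * Complex.I))) θ :=
        (HasDerivAt.comp θ (hf.analyticAt (hcb θ)).differentiableAt.hasDerivAt
          (hcd θ)).const_sub w
      have e2 := hasDerivAt_norm_aux e1 hne
      have e3 := (hasDerivAt_const θ (1 : ℝ)).fun_div e2 (norm_ne_zero_iff.2 hne)
      refine e3.congr_deriv ?_
      have e4 : -(deriv f (c θ) * (c θ * Complex.I)) / (w - f (c θ)) = -(Q θ * Complex.I) := by
        simp only [hQ, QQ]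
        ring
      have e5 : (-(Q θ * Complex.I)).re = (Q θ).im := by simp
      rw [e4, e5, ← him θ]
      have hn := norm_ne_zero_iff.2 hne
      field_simp
      ring
    · intro θ
      refine (hαd θ).congr_deriv ?_
      rw [hre θ]
      simp only [hG, GG, hQ, uu, Complex.add_re, hc]
  · have e1 : α 0 ≤ 0 := by
      have : E 0 = 0 := by simp [hE]
      simp only [hα, this, Complex.zero_re, add_zero]
      exact ha2
    have e2 : 0 ≤ α (2 * Real.pi) := by
      simp only [hα, hE]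
      rw [hG2]
      linarith
    have hαc : ContinuousOn α (Icc 0 (2 * Real.pi)) := fun θ _ =>
      (hαd θ).continuousAt.continuousWithinAt
    obtain ⟨τ, -, hτ⟩ := intermediate_value_Icc Real.two_pi_pos.le hαc ⟨e1, e2⟩
    refine ⟨τ, hτ, ?_⟩
    have e3 : α (τ + 2 * Real.pi) - α τ = (∫ t in τ..τ + 2 * Real.pi, G t).re := by
      simp only [hα, hE]
      rw [← intervalIntegral.integral_interval_sub_left (hGc.intervalIntegrable 0 _)
        (hGc.intervalIntegrable 0 τ), Complex.sub_re]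
      ring
    rw [hper.intervalIntegral_add_eq τ 0, zero_add, hG2, hτ, sub_zero] at e3
    exact e3

/-- **The length of the image of a circle under `1 / (w - f)`.** -/
theorem IsConvexMap.length_le (hf : IsConvexMap f) {w : ℂ} (hw : w ∉ f '' ball 0 1) {r M : ℝ}
    (h0 : 0 < r) (h1 : r < 1) (hM : ∀ θ, 1 / ‖w - f (circleMap 0 r θ)‖ ≤ M) :
    ∫ θ in (0 : ℝ)..2 * Real.pi, 1 / ‖w - f (circleMap 0 r θ)‖ * ‖QQ f w (circleMap 0 r θ)‖ ≤
      2 * Real.pi * M := by
  obtain ⟨A, α, ρ, κ, hT, hA, hρ, hre, τ, hτ, hτ'⟩ := hf.exists_turn hw h0 h1 hM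
  have hcos : ∫ t in τ..τ + 2 * Real.pi, ρ t * Real.cos (α t) = 0 := by
    have e1 : ∫ t in τ..τ + 2 * Real.pi, ρ t * Real.cos (α t) =
        ∫ t in τ..τ + 2 * Real.pi, (QQ f w (circleMap 0 r t)).re :=
      intervalIntegral.integral_congr fun t _ => hre t
    have hper : Function.Periodic (fun t => (QQ f w (circleMap 0 r t)).re) (2 * Real.pi) := by
      intro θ
      simp only
      rw [periodic_circleMap 0 r θ]
    rw [e1, hper.intervalIntegral_add_eq τ 0, zero_add, integral_re_zero (hf.diff_QQ hw) h0 h1]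
    simp [QQ]
  have h2 := hT.length Real.two_pi_pos hτ hτ' hcos
  have hper : Function.Periodic (fun t => A t * ρ t) (2 * Real.pi) := by
    intro θ
    simp only [hA, hρ]
    rw [periodic_circleMap 0 r θ]
  rw [hper.intervalIntegral_add_eq τ 0, zero_add] at h2
  refine le_of_eq_of_le ?_ h2
  exact intervalIntegral.integral_congr fun t _ => by simp only [hA, hρ]

/-- The coefficients and the distance of the curve `f (|z| = r)` from `w`. -/
theorem IsConvexMap.coeff_len (hf : IsConvexMap f) {w : ℂ} (hw : w ∉ f '' ball 0 1) {r M : ℝ}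
    (h0 : 0 < r) (h1 : r < 1) (hM : ∀ θ, 1 / ‖w - f (circleMap 0 r θ)‖ ≤ M) (n : ℕ) :
    n * ‖tcoeff (fun z => f z / (1 - f z / w)) n‖ * r ^ n ≤ ‖w‖ ^ 2 * M := by
  have hw0 : w ≠ 0 := by
    rintro rfl
    exact hw hf.zero_mem
  set g : ℂ → ℂ := fun z => f z / (1 - f z / w) with hg
  have hwf : ∀ z ∈ ball (0 : ℂ) 1, 1 - f z / w ≠ 0 := by
    intro z hz h
    apply IsConvexMap.sub_ne hw hz
    have h2 : w - f z = w * (1 - f z / w) := by field_simp
    rw [h2, h, mul_zero]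
  have hgd : ∀ z ∈ ball (0 : ℂ) 1, HasDerivAt g (w ^ 2 * deriv f z / (w - f z) ^ 2) z := by
    intro z hz
    have e1 : HasDerivAt f (deriv f z) z := (hf.analyticAt hz).differentiableAt.hasDerivAt
    have e2 := e1.fun_div ((e1.div_const w).const_sub 1) (hwf z hz)
    refine e2.congr_deriv ?_
    have e3 := IsConvexMap.sub_ne hw hz
    have e4 : 1 - f z / w = (w - f z) / w := by field_simp
    rw [e4]
    field_simp
    ring
  have hgdiff : DifferentiableOn ℂ g (ball 0 1) := fun z hz =>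
    (hgd z hz).differentiableAt.differentiableWithinAt
  have hga : AnalyticAt ℂ g 0 := analyticAt_of_diff hgdiff
  have hPd : DifferentiableOn ℂ (fun z => z * deriv g z) (ball 0 1) := fun z hz =>
    (differentiableAt_id.mul (hgdiff.analyticAt
      (isOpen_ball.mem_nhds hz)).deriv.differentiableAt).differentiableWithinAt
  have h2 := integral_exp_neg hPd h0 h1 n
  rw [tcoeff_z_deriv hga] at h2
  have hcb : ∀ θ, circleMap 0 r θ ∈ ball (0 : ℂ) 1 := circleMap_mem_ball' h0 h1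
  have h3 : ‖∫ θ in (0 : ℝ)..2 * Real.pi, Complex.exp (-((n : ℂ) * θ * Complex.I)) *
      (circleMap 0 r θ * deriv g (circleMap 0 r θ))‖ ≤ ∫ θ in (0 : ℝ)..2 * Real.pi,
      ‖w‖ ^ 2 * (1 / ‖w - f (circleMap 0 r θ)‖ * ‖QQ f w (circleMap 0 r θ)‖) := by
    refine (intervalIntegral.norm_integral_le_integral_norm Real.two_pi_pos.le).trans_eq ?_
    refine intervalIntegral.integral_congr fun θ _ => ?_
    show ‖_‖ = _
    rw [norm_mul, norm_exp_neg_mul, one_mul, (hgd _ (hcb θ)).deriv]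
    have hne := norm_ne_zero_iff.2 (IsConvexMap.sub_ne hw (hcb θ))
    simp only [QQ, norm_mul, norm_div, norm_pow]
    field_simp
  rw [h2, intervalIntegral.integral_const_mul] at h3
  have h4 := hf.length_le hw h0 h1 hM
  have h5 : ‖(2 * Real.pi * (n * tcoeff g n * r ^ n) : ℂ)‖ =
      2 * Real.pi * (n * ‖tcoeff g n‖ * r ^ n) := by
    rw [norm_mul, norm_mul, norm_mul, norm_mul, norm_pow, Complex.norm_real, Complex.norm_real,
      Real.norm_of_nonneg Real.pi_pos.le, Real.norm_of_nonneg h0.le, Complex.norm_natCast,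
      Complex.norm_two]
  rw [h5] at h3
  have h6 := mul_le_mul_of_nonneg_left h4 (sq_nonneg ‖w‖)
  have hπ := Real.two_pi_pos
  have h7 : 2 * Real.pi * (n * ‖tcoeff g n‖ * r ^ n) ≤ 2 * Real.pi * (‖w‖ ^ 2 * M) := by
    linarith
  exact le_of_mul_le_mul_left h7 hπ

end Pool.Agent.MobConv
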