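import Mathlib
import Pool.Agent.Lib.MP_4b1e7e_an.Up4

/-!
# Explicit bounds of the coefficients of `f / (1 - f / w)`
-/

set_option autoImplicit false

namespace Pool.Agent.MobConv

open Metric Filter Topology Set MeasureTheory

variable {f : ℂ → ℂ}

/-- Schwarz-Pick for the half plane. -/
theorem IsConvexMap.sp (hf : IsConvexMap f) {w : ℂ} (hw : w ∉ f '' ball 0 1) {z : ℂ}
    (hz : z ∈ ball (0 : ℂ) 1) (hz0 : z ≠ 0) :
    ‖deriv f z‖ * (1 - ‖z‖ ^ 2) ≤ 2 * ‖w - f z‖ := by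
  obtain ⟨e, he, hsup⟩ := exists_support hf.isOpen_image hf.convex ⟨_, hf.zero_mem⟩ hw
  obtain ⟨ζ, hζ, hzζ⟩ := exists_polar hz0
  have hz1 : ‖z‖ < 1 := by simpa using hz
  have hzp : 0 < ‖z‖ := norm_pos_iff.2 hz0
  have hzb : (‖z‖ : ℂ) ∈ ball (0 : ℂ) 1 := by
    rw [mem_ball_zero_iff, Complex.norm_real, norm_norm]
    exact hz1
  set P : ℂ → ℂ := fun y => e * (w - f (ζ * y)) with hP
  have hPder : ∀ y ∈ ball (0 : ℂ) 1, HasDerivAt P (e * (-(deriv f (ζ * y) * (ζ * 1)))) y := by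
    intro y hy
    have e1 : HasDerivAt (fun y : ℂ => ζ * y) (ζ * 1) y := (hasDerivAt_id y).const_mul ζ
    have e2 : HasDerivAt f (deriv f (ζ * y)) (ζ * y) :=
      (hf.analyticAt (mul_mem_ball hζ hy)).differentiableAt.hasDerivAt
    have e3 : HasDerivAt (fun y => f (ζ * y)) (deriv f (ζ * y) * (ζ * 1)) y :=
      HasDerivAt.comp (h₂ := f) (h := fun y : ℂ => ζ * y) y e2 e1
    exact (e3.const_sub w).const_mul e
  have hPd : DifferentiableOn ℂ P (ball 0 1) := fun y hy =>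
    (hPder y hy).differentiableAt.differentiableWithinAt
  have hPre : ∀ y ∈ ball (0 : ℂ) 1, 0 ≤ (P y).re := fun y hy =>
    (hsup _ ⟨ζ * y, mul_mem_ball hζ hy, rfl⟩).le
  have h1 := schwarz_pick hPd hPre hzp hz1
  rw [(hPder _ hzb).deriv, norm_mul, he, one_mul, norm_neg, norm_mul, mul_one, hζ, mul_one,
    ← hzζ] at h1
  have h2 : (P (‖z‖ : ℂ)).re ≤ ‖w - f z‖ := by
    refine (Complex.re_le_norm _).trans_eq ?_
    simp only [hP]
    rw [norm_mul, he, one_mul, ← hzζ]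
  linarith

/-- The distance of `w` from the value at `z`. -/
theorem IsConvexMap.dist_le (hf : IsConvexMap f) {w : ℂ} (hw : w ∉ f '' ball 0 1) {z : ℂ}
    (hz : z ∈ ball (0 : ℂ) 1) (hz0 : z ≠ 0) {T : ℝ} (hT0 : 0 ≤ T)
    (hT : 2 * ‖z‖ ^ 2 ≤ T * (1 - ‖z‖ ^ 2)) :
    ‖w‖ ≤ ‖w - f z‖ + Real.pi / 2 * Real.sqrt (‖w - f z‖ * T) := by
  have hπ := Real.pi_pos
  have hz1 : ‖z‖ < 1 := by simpa using hz
  have hzp : 0 < ‖z‖ := norm_pos_iff.2 hz0
  have h1 := hf.sp hw hz hz0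
  have h2 := hf.key hz
  have hr : 0 < 1 - ‖z‖ ^ 2 := by nlinarith
  have h3 : ‖z‖ ^ 2 * ‖deriv f z‖ ≤ ‖w - f z‖ * T := by
    have e1 : ‖z‖ ^ 2 * ‖deriv f z‖ * (1 - ‖z‖ ^ 2) ≤ ‖w - f z‖ * T * (1 - ‖z‖ ^ 2) := by
      calc ‖z‖ ^ 2 * ‖deriv f z‖ * (1 - ‖z‖ ^ 2) = ‖z‖ ^ 2 * (‖deriv f z‖ * (1 - ‖z‖ ^ 2)) := by
            ring
        _ ≤ ‖z‖ ^ 2 * (2 * ‖w - f z‖) := mul_le_mul_of_nonneg_left h1 (sq_nonneg _)
        _ = ‖w - f z‖ * (2 * ‖z‖ ^ 2) := by ring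
        _ ≤ ‖w - f z‖ * (T * (1 - ‖z‖ ^ 2)) := mul_le_mul_of_nonneg_left hT (norm_nonneg _)
        _ = ‖w - f z‖ * T * (1 - ‖z‖ ^ 2) := by ring
    exact le_of_mul_le_mul_right e1 hr
  have h4 : ‖f z‖ ≤ Real.pi / 2 * Real.sqrt (‖w - f z‖ * T) := by
    have e1 : ‖f z‖ ^ 2 ≤ (Real.pi / 2 * Real.sqrt (‖w - f z‖ * T)) ^ 2 := by
      rw [mul_pow, Real.sq_sqrt (mul_nonneg (norm_nonneg _) hT0)]
      have e2 : 0 ≤ Real.pi ^ 2 / 4 := by positivity
      have e3 := mul_le_mul_of_nonneg_left h3 e2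
      nlinarith
    exact le_of_sq_le_sq e1 (by positivity)
  have h5 : ‖w‖ ≤ ‖w - f z‖ + ‖f z‖ := by
    have := norm_add_le (w - f z) (f z)
    rwa [sub_add_cancel] at this
  linarith

/-- The elementary step. -/
theorem ratio_aux {W δ N c s : ℝ} (hδ : 0 < δ) (hN : 0 < N) (hc : 0 ≤ c) (hs : 0 < s)
    (hW0 : 0 ≤ W) (h1 : W ≤ δ + c * Real.sqrt (δ * N)) (h2 : W ≤ s * (s + c) * N) :
    W ^ 2 ≤ δ * N * (s + c) ^ 2 := by
  set y := Real.sqrt δ with hy
  set m := Real.sqrt N with hm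
  have hy0 : 0 < y := Real.sqrt_pos.2 hδ
  have hm0 : 0 < m := Real.sqrt_pos.2 hN
  have hδy : δ = y ^ 2 := (Real.sq_sqrt hδ.le).symm
  have hNm : N = m ^ 2 := (Real.sq_sqrt hN.le).symm
  have h3 : Real.sqrt (δ * N) = y * m := Real.sqrt_mul hδ.le N
  rw [h3] at h1
  have key : W ≤ y * m * (s + c) := by
    by_cases hle : y ≤ s * m
    · calc W ≤ δ + c * (y * m) := h1
        _ = y * (y + c * m) := by rw [hδy]; ring
        _ ≤ y * (s * m + c * m) := mul_le_mul_of_nonneg_left (by linarith) hy0.le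
        _ = y * m * (s + c) := by ring
    · push Not at hle
      calc W ≤ s * (s + c) * N := h2
        _ = s * m * (m * (s + c)) := by rw [hNm]; ring
        _ ≤ y * (m * (s + c)) := mul_le_mul_of_nonneg_right hle.le (by positivity)
        _ = y * m * (s + c) := by ring
  calc W ^ 2 ≤ (y * m * (s + c)) ^ 2 := pow_le_pow_left₀ hW0 key 2
    _ = δ * N * (s + c) ^ 2 := by rw [hδy, hNm]; ring

/-- The bound of the coefficient of order `n` when `|w|` is at most `s (s + π / (2 q)) n`. -/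
theorem IsConvexMap.coeff_small (hf : IsConvexMap f) {w : ℂ} (hw : w ∉ f '' ball 0 1) {q s : ℝ}
    (hq : 0 < q) (hs : 0 < s) {n : ℕ} (hn : 1 ≤ n)
    (hwn : ‖w‖ ≤ s * (s + Real.pi / (2 * q)) * n) :
    ‖tcoeff (fun z => f z / (1 - f z / w)) n‖ ≤
      Real.exp (q ^ 2) * (s + Real.pi / (2 * q)) ^ 2 := by
  have hπ := Real.pi_pos
  have hN : (0 : ℝ) < n := by exact_mod_cast hn
  have hw0 : w ≠ 0 := by
    rintro rfl
    exact hw hf.zero_mem
  have hwp : 0 < ‖w‖ := norm_pos_iff.2 hw0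
  set x : ℝ := q ^ 2 with hx
  have hx0 : 0 < x := pow_pos hq 2
  set r : ℝ := n / (n + x) with hr
  have hnx : 0 < (n : ℝ) + x := by linarith
  have hr0 : 0 < r := by positivity
  have hr1 : r < 1 := by
    rw [hr, div_lt_one hnx]
    linarith
  set c : ℝ := Real.pi / (2 * q) with hc
  have hc0 : 0 < c := by positivity
  have hcb : ∀ θ, circleMap 0 r θ ∈ ball (0 : ℂ) 1 := circleMap_mem_ball' hr0 hr1
  have hM : ∀ θ, 1 / ‖w - f (circleMap 0 r θ)‖ ≤ n * (s + c) ^ 2 / ‖w‖ ^ 2 := by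
    intro θ
    have hne := norm_pos_iff.2 (IsConvexMap.sub_ne hw (hcb θ))
    have hz0 : circleMap 0 r θ ≠ 0 := circleMap_ne_center hr0.ne'
    have hzn : ‖circleMap 0 r θ‖ = r := by rw [norm_circleMap_zero, abs_of_pos hr0]
    have hT : 2 * ‖circleMap 0 r θ‖ ^ 2 ≤ n / x * (1 - ‖circleMap 0 r θ‖ ^ 2) := by
      rw [hzn, hr, div_pow, ← sub_nonneg]
      have e1 : (n : ℝ) / x * (1 - n ^ 2 / (n + x) ^ 2) - 2 * (n ^ 2 / (n + x) ^ 2) =
          n * x / (n + x) ^ 2 := by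
        field_simp
        ring
      rw [e1]
      positivity
    have h1 := hf.dist_le hw (hcb θ) hz0 (by positivity) hT
    have h2 : Real.pi / 2 * Real.sqrt (‖w - f (circleMap 0 r θ)‖ * (n / x)) =
        c * Real.sqrt (‖w - f (circleMap 0 r θ)‖ * n) := by
      rw [mul_div_assoc', Real.sqrt_div' _ hx0.le, hx, Real.sqrt_sq hq.le, hc]
      field_simp
    rw [h2] at h1
    have h3 := ratio_aux hne hN hc0.le hs hwp.le h1 hwn
    rw [div_le_div_iff₀ hne (pow_pos hwp 2)]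
    linarith
  have h1 := hf.coeff_len hw hr0 hr1 hM n
  have h2 : ‖w‖ ^ 2 * (n * (s + c) ^ 2 / ‖w‖ ^ 2) = n * (s + c) ^ 2 := by
    field_simp
  rw [h2, mul_assoc] at h1
  have h3 : ‖tcoeff (fun z => f z / (1 - f z / w)) n‖ * r ^ n ≤ (s + c) ^ 2 :=
    le_of_mul_le_mul_left h1 hN
  -- the factor `r ^ n`
  have h4 : 1 ≤ r ^ n * Real.exp x := by
    have e1 : 1 / r ≤ Real.exp (x / n) := by
      have e2 : 1 / r = x / n + 1 := by
        rw [hr]
        field_simp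
        ring
      rw [e2]
      exact Real.add_one_le_exp _
    have e3 : (1 / r) ^ n ≤ Real.exp x := by
      calc (1 / r) ^ n ≤ Real.exp (x / n) ^ n := pow_le_pow_left₀ (by positivity) e1 n
        _ = Real.exp x := by
            rw [← Real.exp_nat_mul]
            congr 1
            field_simp
    have e4 : r ^ n * (1 / r) ^ n = 1 := by
      rw [← mul_pow, mul_one_div_cancel hr0.ne', one_pow]
    rw [← e4]
    exact mul_le_mul_of_nonneg_left e3 (by positivity)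
  set a := ‖tcoeff (fun z => f z / (1 - f z / w)) n‖ with ha
  have ha0 : 0 ≤ a := norm_nonneg _
  calc a ≤ a * (r ^ n * Real.exp x) := le_mul_of_one_le_right ha0 h4
    _ = a * r ^ n * Real.exp x := by ring
    _ ≤ (s + c) ^ 2 * Real.exp x := mul_le_mul_of_nonneg_right h3 (Real.exp_pos _).le
    _ = Real.exp x * (s + c) ^ 2 := by ring

/-- The bound of the coefficients by `|w|`. -/
theorem IsConvexMap.coeff_large (hf : IsConvexMap f) {w : ℂ} (hw : w ∉ f '' ball 0 1) (m : ℕ) :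
    ‖tcoeff (fun z => f z / (1 - f z / w)) (m + 1)‖ ≤ (1 + 1 / ‖w‖) ^ m := by
  have hw0 : w ≠ 0 := by
    rintro rfl
    exact hw hf.zero_mem
  have hwp : 0 < ‖w‖ := norm_pos_iff.2 hw0
  set g : ℂ → ℂ := fun z => f z / (1 - f z / w) with hg
  have hwf : ∀ z ∈ ball (0 : ℂ) 1, 1 - f z / w ≠ 0 := by
    intro z hz h
    apply IsConvexMap.sub_ne hw hz
    have h2 : w - f z = w * (1 - f z / w) := by field_simp
    rw [h2, h, mul_zero]
  have hfa : AnalyticAt ℂ f 0 := hf.analyticAt (by simp)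
  have hga : AnalyticAt ℂ g 0 :=
    hfa.div (analyticAt_const.sub (hfa.div analyticAt_const hw0)) (hwf 0 (by simp))
  have hg0 : tcoeff g 0 = 0 := by
    rw [tcoeff_zero]
    simp [hg, hf.zero]
  have hf0 : tcoeff f 0 = 0 := by
    rw [tcoeff_zero, hf.zero]
  have hrec : ∀ n : ℕ, tcoeff g n = tcoeff f n + w⁻¹ * ∑ i ∈ Finset.range (n + 1),
      tcoeff f i * tcoeff g (n - i) := by
    intro n
    rw [← tcoeff_mul hfa hga]
    have h1 : ∀ z ∈ ball (0 : ℂ) 1, g z = f z + w⁻¹ * (f z * g z) := by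
      intro z hz
      have h2 := hwf z hz
      have h3 : g z * (1 - f z / w) = f z := div_mul_cancel₀ _ h2
      obtain ⟨G, hG⟩ : ∃ G, G = g z := ⟨_, rfl⟩
      rw [← hG] at h3 ⊢
      linear_combination h3
    rw [tcoeff_congr h1]
    have hmul : AnalyticAt ℂ (fun z => w⁻¹ * (f z * g z)) 0 :=
      analyticAt_const.mul (hfa.mul hga)
    unfold tcoeff
    rw [iteratedDeriv_fun_add hfa.contDiffAt hmul.contDiffAt, iteratedDeriv_const_mul_field,
      add_div, mul_div_assoc]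
  induction m using Nat.strong_induction_on with
  | _ m ih =>
    set u : ℝ := 1 / ‖w‖ with hu
    have hu0 : 0 ≤ u := by positivity
    have h1 : ‖∑ i ∈ Finset.range (m + 1 + 1), tcoeff f i * tcoeff g (m + 1 - i)‖ ≤
        ∑ j ∈ Finset.range m, (1 + u) ^ j := by
      rw [Finset.sum_range_succ, Nat.sub_self, hg0, mul_zero, add_zero, Finset.sum_range_succ',
        hf0, zero_mul, add_zero, ← Finset.sum_range_reflect (fun j => (1 + u) ^ j)]
      refine (norm_sum_le _ _).trans (Finset.sum_le_sum fun i hi => ?_)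
      have hi' := Finset.mem_range.1 hi
      have e1 : m + 1 - (i + 1) = (m - 1 - i) + 1 := by omega
      rw [norm_mul, e1]
      calc ‖tcoeff f (i + 1)‖ * ‖tcoeff g (m - 1 - i + 1)‖ ≤ 1 * (1 + u) ^ (m - 1 - i) :=
            mul_le_mul (hf.coeff_le (i + 1) (by omega)) (ih _ (by omega)) (norm_nonneg _)
              zero_le_one
        _ = (1 + u) ^ (m - 1 - i) := one_mul _
    have h2 := mul_geom_sum (1 + u) m
    have h3 : u * ∑ j ∈ Finset.range m, (1 + u) ^ j = (1 + u) ^ m - 1 := by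
      rw [← h2]
      ring
    rw [hrec]
    calc ‖tcoeff f (m + 1) + w⁻¹ * ∑ i ∈ Finset.range (m + 1 + 1),
          tcoeff f i * tcoeff g (m + 1 - i)‖
        ≤ ‖tcoeff f (m + 1)‖ + ‖w⁻¹ * ∑ i ∈ Finset.range (m + 1 + 1),
          tcoeff f i * tcoeff g (m + 1 - i)‖ := norm_add_le _ _
      _ ≤ 1 + u * ∑ j ∈ Finset.range m, (1 + u) ^ j := by
          refine add_le_add (hf.coeff_le (m + 1) (by omega)) ?_
          rw [norm_mul, norm_inv, ← one_div]
          exact mul_le_mul_of_nonneg_left h1 hu0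
      _ = (1 + u) ^ m := by rw [h3]; ring

/-- The bound of the coefficient of order `n` when `|w|` is at least `t n`. -/
theorem IsConvexMap.coeff_large' (hf : IsConvexMap f) {w : ℂ} (hw : w ∉ f '' ball 0 1) {t : ℝ}
    (ht : 0 < t) {n : ℕ} (hn : 1 ≤ n) (hwn : t * n ≤ ‖w‖) :
    ‖tcoeff (fun z => f z / (1 - f z / w)) n‖ ≤ Real.exp (1 / t) := by
  obtain ⟨m, rfl⟩ : ∃ m, n = m + 1 := ⟨n - 1, by omega⟩
  have hN : (0 : ℝ) < ((m + 1 : ℕ) : ℝ) := by positivity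
  have hwp : 0 < ‖w‖ := (mul_pos ht hN).trans_le hwn
  refine (hf.coeff_large hw m).trans ?_
  have h1 : 1 + 1 / ‖w‖ ≤ Real.exp (1 / ‖w‖) := by
    rw [add_comm]
    exact Real.add_one_le_exp _
  calc (1 + 1 / ‖w‖) ^ m ≤ Real.exp (1 / ‖w‖) ^ m := pow_le_pow_left₀ (by positivity) h1 m
    _ = Real.exp (m * (1 / ‖w‖)) := by rw [← Real.exp_nat_mul]
    _ ≤ Real.exp (1 / t) := by
        refine Real.exp_le_exp.2 ?_
        rw [mul_one_div, div_le_div_iff₀ hwp ht]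
        push_cast at hwn
        nlinarith

end Pool.Agent.MobConv
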